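import Pool.Agent.Lib.MP_c80ac4_an.HM.Defs

/-! # Pisot numbers: traces of powers -/

namespace Forcing

open Polynomial

namespace HM

open IntermediateField

/-- The data of a Pisot number that we use: integers `N k` close to `θ ^ k`, and the coordinates
`A i` of the power `θ ^ i` in the basis of the first `m` powers. -/
theorem exists_data {θ : ℝ} (h : IsPisot θ) :
    ∃ (m : ℕ) (N : ℕ → ℤ) (A : ℕ → Fin m → ℤ) (C r : ℝ), 0 < m ∧ 0 ≤ C ∧ 0 ≤ r ∧ r < 1 ∧
      (∀ k, |(N k : ℝ) - θ ^ k| ≤ C * r ^ k) ∧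
      (∀ i, θ ^ i = ∑ l : Fin m, (A i l : ℝ) * θ ^ (l : ℕ)) ∧
      (∀ k i, N (k + i) = ∑ l : Fin m, A i l * N (k + l)) ∧
      ∀ j : Fin m → ℤ, ∑ i : Fin m, (j i : ℝ) * θ ^ (i : ℕ) = 0 → j = 0 := by
  classical
  obtain ⟨hθ, p, hpm, hp0, hpr⟩ := h
  have hint : IsIntegral ℤ θ := ⟨p, hpm, by rwa [← aeval_def]⟩
  have hintQ : IsIntegral ℚ θ := hint.tower_top
  set f : ℤ[X] := minpoly ℤ θ with hf
  have hfm : f.Monic := minpoly.monic hint
  have hfQ : minpoly ℚ θ = f.map (algebraMap ℤ ℚ) :=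
    minpoly.isIntegrallyClosed_eq_field_fractions' ℚ hint
  set m : ℕ := (minpoly ℚ θ).natDegree with hm
  have hmf : f.natDegree = m := by rw [hm, hfQ, hfm.natDegree_map]
  have hmpos : 0 < m := minpoly.natDegree_pos hintQ
  set K := ℚ⟮θ⟯ with hK
  have : FiniteDimensional ℚ K := adjoin.finiteDimensional hintQ
  set g : K := AdjoinSimple.gen ℚ θ with hg
  have hgθ : ((g : K) : ℝ) = θ := AdjoinSimple.coe_gen ℚ θ
  have hgint : IsIntegral ℤ g := by
    have h1 : IsIntegral ℤ (algebraMap K ℝ g) := by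
      rw [show algebraMap K ℝ g = θ from hgθ]
      exact hint
    exact (isIntegral_algebraMap_iff (algebraMap K ℝ).injective).1 h1
  -- traces
  have htr : ∀ k : ℕ, ∃ n : ℤ, (n : ℚ) = Algebra.trace ℚ K (g ^ k) := by
    intro k
    have h1 : IsIntegral ℤ (Algebra.trace ℚ K (g ^ k)) := Algebra.isIntegral_trace (hgint.pow k)
    obtain ⟨n, hn⟩ := IsIntegrallyClosed.isIntegral_iff.1 h1
    exact ⟨n, by simpa using hn⟩
  choose N hN using htr
  -- the coordinates
  set A : ℕ → Fin m → ℤ := fun i l => (X ^ i %ₘ f).coeff l with hA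
  have hfne : f ≠ 1 := by
    intro h1
    rw [h1, natDegree_one] at hmf
    omega
  have hAθ : ∀ i, θ ^ i = ∑ l : Fin m, (A i l : ℝ) * θ ^ (l : ℕ) := by
    intro i
    have h1 : aeval θ (X ^ i %ₘ f) = aeval θ (X ^ i : ℤ[X]) :=
      aeval_modByMonic_eq_self_of_root (minpoly.aeval ℤ θ)
    have h2 : (X ^ i %ₘ f).natDegree < m := by
      rw [← hmf]
      exact natDegree_modByMonic_lt _ hfm hfne
    rw [aeval_X_pow] at h1
    rw [← h1, aeval_eq_sum_range' h2, Finset.sum_range]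
    refine Finset.sum_congr rfl fun l _ => ?_
    rw [zsmul_eq_mul]
  have hAg : ∀ i, g ^ i = ∑ l : Fin m, (A i l : K) * g ^ (l : ℕ) := by
    intro i
    have h1 : ((g ^ i : K) : ℝ) = ((∑ l : Fin m, (A i l : K) * g ^ (l : ℕ) : K) : ℝ) := by
      push_cast
      rw [hgθ]
      exact hAθ i
    exact_mod_cast h1
  -- the embeddings
  set σ0 : K →ₐ[ℚ] ℂ := (IsScalarTower.toAlgHom ℚ ℝ ℂ).comp K.val with hσ0
  have hσ0g : σ0 g = θ := by
    rw [hσ0, AlgHom.comp_apply]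
    show algebraMap ℝ ℂ (g : ℝ) = θ
    rw [hgθ]
    rfl
  have hroot : ∀ σ : K →ₐ[ℚ] ℂ, aeval (σ g) p = 0 := by
    intro σ
    have h1 : aeval g p = 0 := by
      have h2 : aeval (algebraMap K ℝ g) p = algebraMap K ℝ (aeval g p) :=
        aeval_algebraMap_apply ℝ g p
      rw [show algebraMap K ℝ g = θ from hgθ, hp0] at h2
      exact (map_eq_zero_iff _ (algebraMap K ℝ).injective).1 h2.symm
    have h3 : aeval (σ g) p = σ (aeval g p) := by
      rw [aeval_def, aeval_def]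
      have h4 := hom_eval₂ p (algebraMap ℤ K) (σ : K →+* ℂ) g
      rw [show ((σ : K →+* ℂ).comp (algebraMap ℤ K)) = algebraMap ℤ ℂ from RingHom.ext_int _ _] at h4
      exact h4.symm
    rw [h3, h1, map_zero]
  have hlt : ∀ σ : K →ₐ[ℚ] ℂ, σ ≠ σ0 → ‖σ g‖ < 1 := by
    intro σ hσ
    refine hpr _ (hroot σ) fun h1 => hσ ?_
    exact (adjoin.powerBasis hintQ).algHom_ext (by
      rw [adjoin.powerBasis_gen]
      exact h1.trans hσ0g.symm)
  obtain ⟨r, hr0, hr1, hr⟩ : ∃ r : ℝ, 0 ≤ r ∧ r < 1 ∧ ∀ σ : K →ₐ[ℚ] ℂ, σ ≠ σ0 → ‖σ g‖ ≤ r := by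
    have h1 : ∀ᶠ r in nhdsWithin (1 : ℝ) (Set.Iio 1), ∀ σ ∈ (Finset.univ : Finset (K →ₐ[ℚ] ℂ)),
        σ ≠ σ0 → ‖σ g‖ ≤ r := by
      rw [Filter.eventually_all_finset]
      intro σ _
      by_cases hσ : σ = σ0
      · exact Filter.Eventually.of_forall fun r h2 => absurd hσ h2
      · have h3 : ∀ᶠ r in nhds (1 : ℝ), ‖σ g‖ < r := lt_mem_nhds (hlt σ hσ)
        filter_upwards [nhdsWithin_le_nhds h3] with r h4 _ using h4.le
    have h2 : ∀ᶠ r in nhdsWithin (1 : ℝ) (Set.Iio 1), (0 : ℝ) < r :=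
      nhdsWithin_le_nhds (lt_mem_nhds one_pos)
    obtain ⟨r, ⟨h3, h4⟩, h5⟩ := ((h1.and h2).and self_mem_nhdsWithin).exists
    exact ⟨r, h4.le, h5, fun σ hσ => h3 σ (Finset.mem_univ _) hσ⟩
  refine ⟨m, N, A, (Fintype.card (K →ₐ[ℚ] ℂ) : ℝ), r, hmpos, by positivity, hr0, hr1, fun k => ?_,
    hAθ, fun k i => ?_, fun j hj => ?_⟩
  · -- closeness
    have h1 : ((N k : ℝ) : ℂ) - (θ : ℂ) ^ k = ∑ σ ∈ Finset.univ.erase σ0, σ (g ^ k) := by
      have h2 := trace_eq_sum_embeddings (K := ℚ) (L := K) ℂ (x := g ^ k)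
      rw [← hN k, ← Finset.add_sum_erase _ _ (Finset.mem_univ σ0), map_pow, hσ0g] at h2
      have h3 : algebraMap ℚ ℂ (N k : ℚ) = ((N k : ℝ) : ℂ) := by
        rw [map_intCast]
        push_cast
        rfl
      rw [h3] at h2
      rw [h2]
      ring
    have h2 : |(N k : ℝ) - θ ^ k| = ‖((N k : ℝ) : ℂ) - (θ : ℂ) ^ k‖ := by
      rw [← Complex.ofReal_pow, ← Complex.ofReal_sub, Complex.norm_real, Real.norm_eq_abs]
    rw [h2, h1]
    refine (norm_sum_le _ _).trans ?_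
    refine (Finset.sum_le_sum (g := fun _ => r ^ k) fun σ hσ => ?_).trans ?_
    · rw [map_pow, norm_pow]
      exact pow_le_pow_left₀ (norm_nonneg _) (hr σ (Finset.ne_of_mem_erase hσ)) k
    · rw [Finset.sum_const, nsmul_eq_mul]
      refine mul_le_mul_of_nonneg_right ?_ (pow_nonneg hr0 k)
      exact_mod_cast (Finset.card_le_card (Finset.erase_subset _ _)).trans (le_of_eq (Finset.card_univ))
  · -- the recurrence
    have h1 : (N (k + i) : ℚ) = ((∑ l : Fin m, A i l * N (k + l) : ℤ) : ℚ) := by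
      push_cast
      rw [hN, pow_add, hAg i, Finset.mul_sum, map_sum]
      refine Finset.sum_congr rfl fun l _ => ?_
      rw [hN]
      have h2 : g ^ k * ((A i l : K) * g ^ (l : ℕ)) = (A i l : ℚ) • g ^ (k + (l : ℕ)) := by
        rw [Algebra.smul_def, map_intCast, pow_add]
        ring
      rw [h2, map_smul, smul_eq_mul]
    exact_mod_cast h1
  · -- independence
    have h1 := Fintype.linearIndependent_iff.1 (linearIndependent_pow (K := ℚ) θ)
      (fun i => (j i : ℚ)) (by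
        rw [← hj]
        refine Finset.sum_congr rfl fun i _ => ?_
        rw [Algebra.smul_def]
        simp)
    funext i
    have := h1 i
    exact_mod_cast this

end HM

end Forcing
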