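import Pool.Agent.Lib.MP_c80ac4_an.HM.Transfer
import Pool.Agent.Lib.MP_c80ac4_an.HM.PisotNT

/-! # Digit sets of Pisot numbers miss polydiscs -/

namespace Forcing

namespace HM

open Forcing.Ratio Filter Topology Polynomial

theorem norm_zpow_sub_le {u v : ℂ} (hu : ‖u‖ = 1) (hv : ‖v‖ = 1) (a : ℤ) :
    ‖u ^ a - v ^ a‖ ≤ |(a : ℝ)| * ‖u - v‖ := by
  have hnat : ∀ n : ℕ, ‖u ^ n - v ^ n‖ ≤ n * ‖u - v‖ := by
    intro n
    induction n with
    | zero => simp
    | succ n ih =>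
      have h1 : u ^ (n + 1) - v ^ (n + 1) = u * (u ^ n - v ^ n) + (u - v) * v ^ n := by ring
      rw [h1]
      refine (norm_add_le _ _).trans ?_
      rw [norm_mul, norm_mul, norm_pow, hu, hv, one_pow, one_mul, mul_one]
      push_cast
      linarith
  rcases Int.eq_nat_or_neg a with ⟨n, rfl | rfl⟩
  · rw [zpow_natCast, zpow_natCast]
    simpa using hnat n
  · rw [zpow_neg, zpow_neg, zpow_natCast, zpow_natCast]
    have hu0 : u ≠ 0 := fun h => by rw [h, norm_zero] at hu; exact zero_ne_one hu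
    have hv0 : v ≠ 0 := fun h => by rw [h, norm_zero] at hv; exact zero_ne_one hv
    have h1 : (u ^ n)⁻¹ - (v ^ n)⁻¹ = -((u ^ n - v ^ n) * ((u ^ n)⁻¹ * (v ^ n)⁻¹)) := by
      have h2 : u ^ n ≠ 0 := pow_ne_zero _ hu0
      have h3 : v ^ n ≠ 0 := pow_ne_zero _ hv0
      field_simp
      ring
    rw [h1, norm_neg, norm_mul, norm_mul, norm_inv, norm_inv, norm_pow, norm_pow, hu, hv, one_pow,
      inv_one, mul_one, mul_one]
    simpa using hnat n

theorem norm_prod_sub_le {ι : Type*} (s : Finset ι) {u v : ι → ℂ} (hu : ∀ i ∈ s, ‖u i‖ = 1)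
    (hv : ∀ i ∈ s, ‖v i‖ = 1) : ‖∏ i ∈ s, u i - ∏ i ∈ s, v i‖ ≤ ∑ i ∈ s, ‖u i - v i‖ := by
  classical
  induction s using Finset.induction_on with
  | empty => simp
  | insert a s ha ih =>
    rw [Finset.prod_insert ha, Finset.prod_insert ha, Finset.sum_insert ha]
    have h1 : u a * ∏ i ∈ s, u i - v a * ∏ i ∈ s, v i =
        (u a - v a) * ∏ i ∈ s, u i + v a * (∏ i ∈ s, u i - ∏ i ∈ s, v i) := by ring
    rw [h1]
    refine (norm_add_le _ _).trans ?_
    rw [norm_mul, norm_mul, hv a (Finset.mem_insert_self _ _), one_mul]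
    have h2 : ‖∏ i ∈ s, u i‖ = 1 := by
      rw [norm_prod]
      exact Finset.prod_eq_one fun i hi => hu i (Finset.mem_insert_of_mem hi)
    rw [h2, mul_one]
    exact add_le_add le_rfl (ih (fun i hi => hu i (Finset.mem_insert_of_mem hi))
      fun i hi => hv i (Finset.mem_insert_of_mem hi))

theorem four_mul_le {y : ℝ} (hy : |y| ≤ 1 / 2) : 4 * |y| ≤ ‖e y - 1‖ := by
  have h1 := norm_e_sub_one_sq y
  have h2 : 2 - 2 * Real.cos (2 * Real.pi * y) = (2 * Real.sin (Real.pi * |y|)) ^ 2 := by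
    have h3 : Real.cos (2 * Real.pi * y) = Real.cos (2 * (Real.pi * |y|)) := by
      rw [← Real.cos_abs (2 * Real.pi * y), abs_mul, abs_of_pos Real.two_pi_pos]
      congr 1
      ring
    rw [h3, Real.cos_two_mul, Real.cos_sq']
    ring
  have h3 : 2 * |y| ≤ Real.sin (Real.pi * |y|) := by
    have h4 := Real.mul_le_sin (x := Real.pi * |y|) (by have := Real.pi_pos; positivity)
      (by have := Real.pi_pos; nlinarith)
    have h5 : 2 / Real.pi * (Real.pi * |y|) = 2 * |y| := by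
      have := Real.pi_pos
      field_simp
    linarith
  rw [h2] at h1
  refine (abs_le_of_sq_le_sq' ?_ (norm_nonneg _)).2
  rw [h1]
  have := abs_nonneg y
  nlinarith

/-- integers close to `d θ ^ s` for `d` in `ℤ[θ]` -/
theorem digit_approx {θ C r : ℝ} {N : ℕ → ℤ} (hC : 0 ≤ C) (hr0 : 0 ≤ r) (hr1 : r < 1)
    (hN : ∀ k, |(N k : ℝ) - θ ^ k| ≤ C * r ^ k) (p : ℤ[X]) :
    ∃ (I : ℕ → ℤ) (C' : ℝ), 0 ≤ C' ∧ ∀ s, |(I s : ℝ) - aeval θ p * θ ^ s| ≤ C' * r ^ s := by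
  induction p using Polynomial.induction_on' with
  | add p q hp hq =>
    obtain ⟨I, c, hc, h1⟩ := hp
    obtain ⟨I', c', hc', h2⟩ := hq
    refine ⟨fun s => I s + I' s, c + c', by positivity, fun s => ?_⟩
    rw [map_add]
    push_cast
    have h3 : (I s : ℝ) + I' s - (aeval θ p + aeval θ q) * θ ^ s =
        ((I s : ℝ) - aeval θ p * θ ^ s) + ((I' s : ℝ) - aeval θ q * θ ^ s) := by ring
    rw [h3]
    refine (abs_add_le _ _).trans ?_
    rw [add_mul]
    exact add_le_add (h1 s) (h2 s)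
  | monomial l a =>
    refine ⟨fun s => a * N (s + l), |(a : ℝ)| * C, by positivity, fun s => ?_⟩
    rw [aeval_monomial]
    push_cast
    have h3 : (a : ℝ) * (N (s + l) : ℝ) - algebraMap ℤ ℝ a * θ ^ l * θ ^ s =
        (a : ℝ) * ((N (s + l) : ℝ) - θ ^ (s + l)) := by
      rw [pow_add, eq_intCast]
      ring
    rw [h3, abs_mul, mul_assoc]
    refine mul_le_mul_of_nonneg_left ((hN _).trans ?_) (abs_nonneg _)
    refine mul_le_mul_of_nonneg_left ?_ hC
    exact pow_le_pow_of_le_one hr0 hr1.le (Nat.le_add_right _ _)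

theorem geom_partial {r : ℝ} (hr0 : 0 ≤ r) (hr1 : r < 1) (a : ℕ) :
    ∑ j ∈ Finset.range a, r ^ j ≤ (1 - r)⁻¹ := by
  rw [← tsum_geometric_of_lt_one hr0 hr1]
  exact (summable_geometric_of_lt_one hr0 hr1).sum_le_tsum _ fun _ _ => pow_nonneg hr0 _

/-- The value at a frequency `N (k + i)` depends, up to a small error, only on the digits near
position `k`. -/
theorem local_digits {θ C r : ℝ} {N : ℕ → ℤ} (hθ : 1 < θ) (hC : 0 ≤ C) (hr0 : 0 ≤ r) (hr1 : r < 1)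
    (hN : ∀ k, |(N k : ℝ) - θ ^ k| ≤ C * r ^ k) {B CD : ℝ} (hB : 0 ≤ B) (hCD : 0 ≤ CD)
    {d : ℕ → ℝ} {x : ℝ} (hx : HasSum (fun j => d j * θ⁻¹ ^ (j + 1)) x) (hdB : ∀ j, |d j| ≤ B)
    (hdI : ∀ j, ∃ I : ℕ → ℤ, ∀ s, |(I s : ℝ) - d j * θ ^ s| ≤ CD * r ^ s)
    {k n r0 i : ℕ} (hk : r0 ≤ k) (hi : i ≤ n) :
    ‖e ((N (k + i) : ℝ) * x) -
      e ((N (k + i) : ℝ) * ∑ j ∈ Finset.Ico (k - r0) (k + n + r0), d j * θ⁻¹ ^ (j + 1))‖ ≤
      2 * Real.pi * (CD * (1 - r)⁻¹ * r ^ r0 + C * B * (1 - θ⁻¹)⁻¹ * r ^ k +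
        (1 + C) * B * (1 - θ⁻¹)⁻¹ * θ⁻¹ ^ r0) := by
  set β : ℝ := θ⁻¹ with hβ
  have hβ0 : 0 < β := by rw [hβ]; positivity
  have hβ1 : β < 1 := inv_lt_one_of_one_lt₀ hθ
  have hθβ : θ * β = 1 := mul_inv_cancel₀ (by positivity)
  have hG : 0 < (1 - β)⁻¹ := inv_pos.2 (by linarith)
  choose I hI using hdI
  set a : ℕ := k - r0 with ha
  set b : ℕ := k + n + r0 with hb
  have hab : a ≤ b := by omega
  set head : ℝ := ∑ j ∈ Finset.range a, d j * β ^ (j + 1) with hhead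
  set mid : ℝ := ∑ j ∈ Finset.Ico a b, d j * β ^ (j + 1) with hmid
  set tail : ℝ := x - ∑ j ∈ Finset.range b, d j * β ^ (j + 1) with htail
  have hsplit : x = head + mid + tail := by
    rw [htail, hhead, hmid, Finset.sum_range_add_sum_Ico _ hab]
    ring
  -- the head
  set M : ℤ := ∑ j ∈ Finset.range a, I j (k + i - (j + 1)) with hM
  have hheadM : |(N (k + i) : ℝ) * head - M| ≤
      CD * (1 - r)⁻¹ * r ^ r0 + C * B * (1 - β)⁻¹ * r ^ k := by
    have h1 : (N (k + i) : ℝ) * head - M = ∑ j ∈ Finset.range a,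
        ((((N (k + i) : ℝ) - θ ^ (k + i)) * (d j * β ^ (j + 1))) +
          (d j * θ ^ (k + i - (j + 1)) - I j (k + i - (j + 1)))) := by
      rw [hhead, hM, Finset.mul_sum]
      push_cast
      rw [← Finset.sum_sub_distrib]
      refine Finset.sum_congr rfl fun j hj => ?_
      have hj' : j + 1 ≤ k + i := by
        have := Finset.mem_range.1 hj
        omega
      have h2 : θ ^ (k + i) * β ^ (j + 1) = θ ^ (k + i - (j + 1)) := by
        obtain ⟨s, hs⟩ := Nat.exists_eq_add_of_le hj'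
        rw [hs, Nat.add_sub_cancel_left, pow_add]
        have h3 : θ ^ (j + 1) * β ^ (j + 1) = 1 := by rw [← mul_pow, hθβ, one_pow]
        calc θ ^ (j + 1) * θ ^ s * β ^ (j + 1) = (θ ^ (j + 1) * β ^ (j + 1)) * θ ^ s := by ring
          _ = θ ^ s := by rw [h3, one_mul]
      rw [← h2]
      ring
    rw [h1]
    refine (Finset.abs_sum_le_sum_abs _ _).trans ?_
    have h2 : ∀ j ∈ Finset.range a, |(((N (k + i) : ℝ) - θ ^ (k + i)) * (d j * β ^ (j + 1))) +
          (d j * θ ^ (k + i - (j + 1)) - I j (k + i - (j + 1)))| ≤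
        C * r ^ k * (B * β ^ j) + CD * (r ^ r0 * r ^ (a - 1 - j)) := by
      intro j hj
      have hj' := Finset.mem_range.1 hj
      refine (abs_add_le _ _).trans (add_le_add ?_ ?_)
      · rw [abs_mul, abs_mul, abs_of_pos (by positivity : 0 < β ^ (j + 1))]
        refine mul_le_mul ((hN _).trans ?_) ?_ (by positivity) (by positivity)
        · exact mul_le_mul_of_nonneg_left (pow_le_pow_of_le_one hr0 hr1.le (Nat.le_add_right _ _)) hC
        · refine mul_le_mul (hdB j) ?_ (by positivity) hB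
          exact pow_le_pow_of_le_one hβ0.le hβ1.le (Nat.le_succ _)
      · rw [abs_sub_comm]
        refine (hI j _).trans (mul_le_mul_of_nonneg_left ?_ hCD)
        rw [← pow_add]
        exact pow_le_pow_of_le_one hr0 hr1.le (by omega)
    refine (Finset.sum_le_sum h2).trans ?_
    rw [Finset.sum_add_distrib, ← Finset.mul_sum, ← Finset.mul_sum, ← Finset.mul_sum,
      ← Finset.mul_sum, Finset.sum_range_reflect (fun j => r ^ j) a]
    have h3 := geom_partial hβ0.le hβ1 a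
    have h4 := geom_partial hr0 hr1 a
    have h5 : C * r ^ k * (B * ∑ j ∈ Finset.range a, β ^ j) ≤ C * B * (1 - β)⁻¹ * r ^ k := by
      calc C * r ^ k * (B * ∑ j ∈ Finset.range a, β ^ j) ≤ C * r ^ k * (B * (1 - β)⁻¹) := by
            gcongr
        _ = _ := by ring
    have h6 : CD * (r ^ r0 * ∑ j ∈ Finset.range a, r ^ j) ≤ CD * (1 - r)⁻¹ * r ^ r0 := by
      calc CD * (r ^ r0 * ∑ j ∈ Finset.range a, r ^ j) ≤ CD * (r ^ r0 * (1 - r)⁻¹) := by
            gcongr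
        _ = _ := by ring
    linarith
  -- the tail
  have htailB : |tail| ≤ B * (1 - β)⁻¹ * β ^ b := by
    have h1 : HasSum (fun j => d (j + b) * β ^ (j + b + 1)) tail :=
      (hasSum_nat_add_iff' b).2 hx
    have h2 : HasSum (fun j : ℕ => B * β ^ b * β ^ j) (B * β ^ b * (1 - β)⁻¹) :=
      (hasSum_geometric_of_lt_one hβ0.le hβ1).mul_left _
    have h3 := tsum_of_norm_bounded (f := fun j => d (j + b) * β ^ (j + b + 1)) h2 fun j => by
      rw [Real.norm_eq_abs, abs_mul, abs_of_pos (by positivity : 0 < β ^ (j + b + 1)), mul_assoc]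
      refine mul_le_mul (hdB _) ?_ (by positivity) hB
      rw [← pow_add]
      exact pow_le_pow_of_le_one hβ0.le hβ1.le (by omega)
    rw [h1.tsum_eq, Real.norm_eq_abs] at h3
    refine h3.trans (le_of_eq (by ring))
  have hNle : |(N (k + i) : ℝ)| ≤ (1 + C) * θ ^ (k + i) := by
    have h1 : |(N (k + i) : ℝ)| ≤ |(N (k + i) : ℝ) - θ ^ (k + i)| + |θ ^ (k + i)| := by
      have := abs_add_le ((N (k + i) : ℝ) - θ ^ (k + i)) (θ ^ (k + i))
      rwa [sub_add_cancel] at this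
    have h2 : C * r ^ (k + i) ≤ C * θ ^ (k + i) := by
      refine mul_le_mul_of_nonneg_left ?_ hC
      exact pow_le_pow_left₀ hr0 (by linarith) _
    rw [abs_of_pos (by positivity : 0 < θ ^ (k + i))] at h1
    linarith [hN (k + i)]
  have hNtail : |(N (k + i) : ℝ) * tail| ≤ (1 + C) * B * (1 - β)⁻¹ * β ^ r0 := by
    rw [abs_mul]
    have h1 : θ ^ (k + i) * β ^ b ≤ β ^ r0 := by
      have h2 : b = (k + i) + (n - i + r0) := by omega
      rw [h2, pow_add β (k + i) (n - i + r0)]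
      have h3 : θ ^ (k + i) * (β ^ (k + i) * β ^ (n - i + r0)) = β ^ (n - i + r0) := by
        rw [← mul_assoc, ← mul_pow, hθβ, one_pow, one_mul]
      rw [h3]
      exact pow_le_pow_of_le_one hβ0.le hβ1.le (by omega)
    calc |(N (k + i) : ℝ)| * |tail| ≤ ((1 + C) * θ ^ (k + i)) * (B * (1 - β)⁻¹ * β ^ b) :=
          mul_le_mul hNle htailB (abs_nonneg _) (by positivity)
      _ = (1 + C) * B * (1 - β)⁻¹ * (θ ^ (k + i) * β ^ b) := by ring
      _ ≤ (1 + C) * B * (1 - β)⁻¹ * β ^ r0 := by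
          refine mul_le_mul_of_nonneg_left h1 ?_
          positivity
  have hfin : e ((N (k + i) : ℝ) * x) =
      e ((N (k + i) : ℝ) * mid + (((N (k + i) : ℝ) * head - M) + (N (k + i) : ℝ) * tail)) := by
    rw [← e_sub_int ((N (k + i) : ℝ) * x) M]
    congr 1
    rw [hsplit]
    ring
  rw [hfin]
  refine (e_sub_le _ _).trans ?_
  refine mul_le_mul_of_nonneg_left ?_ (by positivity)
  rw [add_sub_cancel_left]
  refine (abs_add_le _ _).trans ?_
  linarith

/-- **Digit sets of Pisot numbers.** -/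
theorem misses_pisot {θ : ℝ} (h : IsPisot θ) (D : Finset ℝ)
    (hD : ∀ d ∈ D, ∃ p : ℤ[X], aeval θ p = d) (hcard : (D.card : ℝ) < θ) :
    ∃ (m : ℕ) (w : Fin m → ℂ) (η : ℝ),
      (∀ j : Fin m → ℤ, ∑ i : Fin m, (j i : ℝ) * θ ^ (i : ℕ) = 0 → j = 0) ∧
      (∀ i, ‖w i‖ = 1) ∧ 0 < η ∧
      Misses (fun i : Fin m => θ ^ (i : ℕ)) w η (e '' digitSet θ (D : Set ℝ)) := by
  classical
  have hθ : 1 < θ := h.1
  obtain ⟨m, N, A, C, r, hm, hC, hr0, hr1, hN, hA, hNA, hind⟩ := exists_data h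
  refine ⟨m, ?_⟩
  by_contra hcon
  push Not at hcon
  set β : ℝ := θ⁻¹ with hβ
  have hβ0 : 0 < β := by rw [hβ]; positivity
  have hβ1 : β < 1 := inv_lt_one_of_one_lt₀ hθ
  have hθβ : θ * β = 1 := mul_inv_cancel₀ (by positivity)
  have hG : 0 < (1 - β)⁻¹ := inv_pos.2 (by linarith)
  -- digits
  have hI : ∀ d ∈ D, ∃ (I : ℕ → ℤ) (C' : ℝ), 0 ≤ C' ∧ ∀ s, |(I s : ℝ) - d * θ ^ s| ≤ C' * r ^ s := by
    intro d hd
    obtain ⟨p, rfl⟩ := hD d hd
    exact digit_approx hC hr0 hr1 hN p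
  choose! I C' hC'0 hI using hI
  set CD : ℝ := ∑ d ∈ D, C' d with hCD
  have hCD0 : 0 ≤ CD := Finset.sum_nonneg fun d hd => hC'0 d hd
  set B : ℝ := ∑ d ∈ D, |d| with hB
  have hB0 : 0 ≤ B := Finset.sum_nonneg fun d _ => abs_nonneg _
  have hDB : ∀ d ∈ D, |d| ≤ B := fun d hd =>
    Finset.single_le_sum (f := fun d => |d|) (fun d _ => abs_nonneg _) hd
  have hDI : ∀ d ∈ D, ∃ I : ℕ → ℤ, ∀ s, |(I s : ℝ) - d * θ ^ s| ≤ CD * r ^ s := fun d hd =>
    ⟨I d, fun s => (hI d hd s).trans (mul_le_mul_of_nonneg_right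
      (Finset.single_le_sum (f := C') (fun d hd => hC'0 d hd) hd) (pow_nonneg hr0 _))⟩
  -- the length of the neighbourhood
  have hθ32 : 0 < 1 / (64 * θ) := by positivity
  obtain ⟨r0, hr0'⟩ : ∃ r0 : ℕ, CD * (1 - r)⁻¹ * r ^ r0 +
      (1 + C) * B * (1 - β)⁻¹ * β ^ r0 ≤ 1 / (64 * θ) := by
    have h1 := (tendsto_pow_atTop_nhds_zero_of_lt_one hr0 hr1).const_mul (CD * (1 - r)⁻¹)
    have h2 := (tendsto_pow_atTop_nhds_zero_of_lt_one hβ0.le hβ1).const_mul
      ((1 + C) * B * (1 - β)⁻¹)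
    have h3 := h1.add h2
    rw [mul_zero, mul_zero, add_zero] at h3
    exact (h3.eventually_le_const hθ32).exists
  have hK : ∀ᶠ k : ℕ in atTop, C * B * (1 - β)⁻¹ * r ^ k ≤ 1 / (64 * θ) := by
    have h1 := (tendsto_pow_atTop_nhds_zero_of_lt_one hr0 hr1).const_mul (C * B * (1 - β)⁻¹)
    rw [mul_zero] at h1
    exact h1.eventually_le_const hθ32
  -- the length of the orbits
  obtain ⟨n, hn⟩ : ∃ n : ℕ, ((D.card ^ (n + 2 * r0) : ℕ) : ℝ) ≤ θ ^ n := by
    have h1 : |(D.card : ℝ) / θ| < 1 := by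
      rw [abs_of_nonneg (div_nonneg (Nat.cast_nonneg _) (by linarith)), div_lt_one (by linarith)]
      exact hcard
    have h2 := (tendsto_pow_atTop_nhds_zero_of_abs_lt_one h1).mul_const ((D.card : ℝ) ^ (2 * r0))
    rw [zero_mul] at h2
    obtain ⟨n, hn⟩ := (h2.eventually_le_const one_pos).exists
    refine ⟨n, ?_⟩
    rw [div_pow, div_mul_eq_mul_div, div_le_one (by positivity), ← pow_add] at hn
    exact_mod_cast hn
  have hθn : 0 < θ ^ n := by positivity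
  set Q : ℕ := ⌊θ ^ n⌋₊ + 1 with hQ
  have hQ1 : D.card ^ (n + 2 * r0) < Q := Nat.lt_succ_of_le (Nat.le_floor hn)
  -- the targets
  set t : Fin Q → ℝ := fun q => (q : ℕ) * (1 / 4 * β ^ n) with ht
  have htq : ∀ q : Fin Q, t q = ((q : ℕ) : ℝ) * (1 / 4 * β ^ n) := fun q => rfl
  clear_value t
  have hβθn : β ^ n * θ ^ n = 1 := by rw [← mul_pow, mul_comm β θ, hθβ, one_pow]
  have ht0 : ∀ q, 0 ≤ t q ∧ t q ≤ 1 / 4 := by
    intro q
    rw [htq]
    refine ⟨by positivity, ?_⟩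
    have h1 : ((q : ℕ) : ℝ) ≤ θ ^ n := by
      have h2 : (q : ℕ) ≤ ⌊θ ^ n⌋₊ := by have := q.2; omega
      have h3 : ((q : ℕ) : ℝ) ≤ (⌊θ ^ n⌋₊ : ℝ) := by exact_mod_cast h2
      exact h3.trans (Nat.floor_le hθn.le)
    have h4 : 0 < β ^ n := by positivity
    calc ((q : ℕ) : ℝ) * (1 / 4 * β ^ n) ≤ θ ^ n * (1 / 4 * β ^ n) := by gcongr
      _ = 1 / 4 * (β ^ n * θ ^ n) := by ring
      _ = 1 / 4 := by rw [hβθn, mul_one]
  have htdiff : ∀ q q' : Fin Q, q ≠ q' → 1 / 4 * β ^ n ≤ |t q - t q'| := by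
    intro q q' hne
    have h1 : (1 : ℝ) ≤ |((q : ℕ) : ℝ) - ((q' : ℕ) : ℝ)| := by
      have h2 : (1 : ℤ) ≤ |((q : ℕ) : ℤ) - ((q' : ℕ) : ℤ)| := by
        refine Int.one_le_abs ?_
        intro h3
        apply hne
        ext
        omega
      exact_mod_cast h2
    have h4 : 0 < 1 / 4 * β ^ n := by positivity
    rw [htq, htq, ← sub_mul, abs_mul, abs_of_pos h4]
    exact le_mul_of_one_le_left h4.le h1
  set SA : ℝ := 1 + ∑ i ∈ Finset.range (n + 1), ∑ l, |(A i l : ℝ)| with hSA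
  have hSA1 : 1 ≤ SA := by
    have : 0 ≤ ∑ i ∈ Finset.range (n + 1), ∑ l, |(A i l : ℝ)| :=
      Finset.sum_nonneg fun _ _ => Finset.sum_nonneg fun _ _ => abs_nonneg _
    linarith
  have hSAi : ∀ i ≤ n, ∑ l, |(A i l : ℝ)| ≤ SA := by
    intro i hi
    have h1 := Finset.single_le_sum (f := fun i => ∑ l, |(A i l : ℝ)|)
      (fun i _ => Finset.sum_nonneg fun _ _ => abs_nonneg _)
      (Finset.mem_range.2 (Nat.lt_succ_of_le hi))
    linarith
  set η : ℝ := 1 / (16 * θ * SA) with hη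
  have hη0 : 0 < η := by positivity
  have htarget : ∀ q : Fin Q, ∃ κ R : ℝ, 0 < κ ∧ ∀ (ν : Fin m → ℤ) (s : ℝ), R ≤ s →
      (∀ i : Fin m, |(ν i : ℝ) - s * θ ^ (i : ℕ)| ≤ κ * s) →
      ∃ z ∈ e '' digitSet θ (D : Set ℝ), ∀ i : Fin m, ‖z ^ ν i - e (t q * θ ^ (i : ℕ))‖ < η := by
    intro q
    have h1 := hcon (fun i : Fin m => e (t q * θ ^ (i : ℕ))) η hind (fun i => norm_e _) hη0
    unfold Misses at h1
    push Not at h1
    obtain ⟨κ, R, hκ, h2⟩ := h1
    exact ⟨κ, R, hκ, h2⟩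
  choose κ R hκ hhit using htarget
  -- the choice of k
  obtain ⟨k, hk1, hk2, hk3⟩ : ∃ k : ℕ, r0 ≤ k ∧ C * B * (1 - β)⁻¹ * r ^ k ≤ 1 / (64 * θ) ∧
      ∀ q : Fin Q, R q ≤ θ ^ k ∧ C * r ^ k ≤ κ q := by
    have h1 : ∀ᶠ k : ℕ in atTop, ∀ q : Fin Q, R q ≤ θ ^ k ∧ C * r ^ k ≤ κ q := by
      rw [Filter.eventually_all]
      intro q
      have h2 := (tendsto_pow_atTop_nhds_zero_of_lt_one hr0 hr1).const_mul C
      rw [mul_zero] at h2
      exact ((tendsto_pow_atTop_atTop_of_one_lt hθ).eventually_ge_atTop (R q)).and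
        (h2.eventually_le_const (hκ q))
    obtain ⟨k, h2, h3, h4⟩ := ((eventually_ge_atTop r0).and (hK.and h1)).exists
    exact ⟨k, h2, h3, h4⟩
  have hz : ∀ q : Fin Q, ∃ (x : ℝ) (d : ℕ → ℝ), (∀ j, d j ∈ (D : Set ℝ)) ∧
      HasSum (fun j => d j * θ⁻¹ ^ (j + 1)) x ∧
      ∀ i : Fin m, ‖e ((N (k + i) : ℝ) * x) - e (t q * θ ^ (i : ℕ))‖ < η := by
    intro q
    obtain ⟨z, ⟨x, ⟨d, hd, hx⟩, rfl⟩, hz⟩ := hhit q (fun i => N (k + i)) (θ ^ k) (hk3 q).1
      fun i => by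
        rw [← pow_add]
        have hθk : 1 ≤ θ ^ k := one_le_pow₀ hθ.le
        calc |(N (k + i) : ℝ) - θ ^ (k + (i : ℕ))| ≤ C * r ^ (k + (i : ℕ)) := hN _
          _ ≤ C * r ^ k := mul_le_mul_of_nonneg_left
              (pow_le_pow_of_le_one hr0 hr1.le (Nat.le_add_right _ _)) hC
          _ ≤ κ q * θ ^ k := (hk3 q).2.trans (le_mul_of_one_le_right (hκ q).le hθk)
    refine ⟨x, d, hd, hx, fun i => ?_⟩
    rw [← e_zpow]
    exact hz i
  choose x d hd hx hclose using hz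
  -- pigeonhole
  obtain ⟨q, q', hne, hqq⟩ := Fintype.exists_ne_map_eq_of_card_lt
    (fun q : Fin Q => fun l : Fin (n + 2 * r0) => (⟨d q (k - r0 + l), hd q _⟩ : (D : Set ℝ))) (by
      rw [Fintype.card_fun, Fintype.card_fin, Fintype.card_fin]
      have : Fintype.card ((D : Set ℝ) : Type) = D.card := Fintype.card_coe D
      rw [this]
      exact hQ1)
  have hsame : ∀ j ∈ Finset.Ico (k - r0) (k + n + r0), d q j = d q' j := by
    intro j hj
    rw [Finset.mem_Ico] at hj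
    have h1 := congrFun hqq ⟨j - (k - r0), by omega⟩
    have h2 := congrArg Subtype.val h1
    simp only at h2
    have h3 : k - r0 + (j - (k - r0)) = j := by omega
    rwa [h3] at h2
  -- the separating time
  set Δ : ℝ := t q - t q' with hΔ
  have hΔ1 : 1 / 4 * β ^ n ≤ |Δ| := htdiff q q' hne
  have hΔ2 : |Δ| ≤ 1 / 4 := by
    rw [abs_le]
    constructor <;> linarith [(ht0 q).1, (ht0 q).2, (ht0 q').1, (ht0 q').2]
  have hex : ∃ i : ℕ, 1 / (4 * θ) ≤ |Δ| * θ ^ i := by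
    refine ⟨n, ?_⟩
    have h1 : 1 / 4 ≤ |Δ| * θ ^ n := by
      calc (1 : ℝ) / 4 = 1 / 4 * β ^ n * θ ^ n := by rw [mul_assoc, hβθn, mul_one]
        _ ≤ |Δ| * θ ^ n := mul_le_mul_of_nonneg_right hΔ1 hθn.le
    refine le_trans ?_ h1
    rw [div_le_div_iff₀ (by positivity) (by norm_num)]
    linarith
  have hexn : 1 / (4 * θ) ≤ |Δ| * θ ^ n := by
    have h1 : 1 / 4 ≤ |Δ| * θ ^ n := by
      calc (1 : ℝ) / 4 = 1 / 4 * β ^ n * θ ^ n := by rw [mul_assoc, hβθn, mul_one]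
        _ ≤ |Δ| * θ ^ n := mul_le_mul_of_nonneg_right hΔ1 hθn.le
    refine le_trans ?_ h1
    rw [div_le_div_iff₀ (by positivity) (by norm_num)]
    linarith
  set i : ℕ := Nat.find hex with hi
  have hi1 : 1 / (4 * θ) ≤ |Δ| * θ ^ i := Nat.find_spec hex
  have hin : i ≤ n := Nat.find_min' hex hexn
  have hi2 : |Δ| * θ ^ i ≤ 1 / 4 := by
    rcases Nat.eq_zero_or_pos i with h0 | h0
    · rw [h0, pow_zero, mul_one]
      exact hΔ2
    · have h1 : ¬ 1 / (4 * θ) ≤ |Δ| * θ ^ (i - 1) := Nat.find_min hex (by omega)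
      push Not at h1
      have h2 : θ ^ i = θ ^ (i - 1) * θ := by
        rw [← pow_succ]
        congr 1
        omega
      rw [h2, ← mul_assoc]
      have h3 : |Δ| * θ ^ (i - 1) * θ < 1 / (4 * θ) * θ :=
        mul_lt_mul_of_pos_right h1 (by linarith)
      have h4 : 1 / (4 * θ) * θ = 1 / 4 := by
        field_simp
      linarith
  have hsep : 1 / θ ≤ ‖e (t q * θ ^ i) - e (t q' * θ ^ i)‖ := by
    have h1 : e (t q * θ ^ i) - e (t q' * θ ^ i) = e (t q' * θ ^ i) * (e (Δ * θ ^ i) - 1) := by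
      have h2 : t q * θ ^ i = t q' * θ ^ i + Δ * θ ^ i := by rw [hΔ]; ring
      rw [h2, e_add]
      ring
    rw [h1, norm_mul, norm_e, one_mul]
    have h3 : |Δ * θ ^ i| = |Δ| * θ ^ i := by
      rw [abs_mul, abs_of_pos (by positivity : 0 < θ ^ i)]
    have h4 := four_mul_le (y := Δ * θ ^ i) (by rw [h3]; linarith)
    rw [h3] at h4
    refine le_trans ?_ h4
    have h5 : 1 / θ = 4 * (1 / (4 * θ)) := by field_simp
    rw [h5]
    linarith
  -- closeness along the orbit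
  have horb : ∀ q : Fin Q, ‖e ((N (k + i) : ℝ) * x q) - e (t q * θ ^ i)‖ ≤ 1 / (16 * θ) := by
    intro q
    have h1 : e ((N (k + i) : ℝ) * x q) = ∏ l : Fin m, e ((N (k + l) : ℝ) * x q) ^ A i l := by
      have h2 : (N (k + i) : ℝ) * x q = ∑ l : Fin m, (A i l : ℝ) * ((N (k + l) : ℝ) * x q) := by
        rw [hNA k i]
        push_cast
        rw [Finset.sum_mul]
        exact Finset.sum_congr rfl fun l _ => by ring
      rw [h2, e_sum]
      exact Finset.prod_congr rfl fun l _ => (e_zpow _ _).symm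
    have h2 : e (t q * θ ^ i) = ∏ l : Fin m, e (t q * θ ^ (l : ℕ)) ^ A i l := by
      have h3 : t q * θ ^ i = ∑ l : Fin m, (A i l : ℝ) * (t q * θ ^ (l : ℕ)) := by
        rw [hA i, Finset.mul_sum]
        exact Finset.sum_congr rfl fun l _ => by ring
      rw [h3, e_sum]
      exact Finset.prod_congr rfl fun l _ => (e_zpow _ _).symm
    rw [h1, h2]
    refine (norm_prod_sub_le _ (fun l _ => by rw [norm_zpow, norm_e, one_zpow])
      fun l _ => by rw [norm_zpow, norm_e, one_zpow]).trans ?_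
    calc ∑ l : Fin m, ‖e ((N (k + l) : ℝ) * x q) ^ A i l - e (t q * θ ^ (l : ℕ)) ^ A i l‖ ≤
          ∑ l : Fin m, |(A i l : ℝ)| * η := by
          refine Finset.sum_le_sum fun l _ => (norm_zpow_sub_le (norm_e _) (norm_e _) _).trans ?_
          exact mul_le_mul_of_nonneg_left (hclose q l).le (abs_nonneg _)
      _ = (∑ l : Fin m, |(A i l : ℝ)|) * η := by rw [Finset.sum_mul]
      _ ≤ SA * η := mul_le_mul_of_nonneg_right (hSAi i hin) hη0.le
      _ = 1 / (16 * θ) := by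
          rw [hη]
          field_simp
  have hloc : ∀ q : Fin Q, ‖e ((N (k + i) : ℝ) * x q) -
      e ((N (k + i) : ℝ) * ∑ j ∈ Finset.Ico (k - r0) (k + n + r0), d q j * β ^ (j + 1))‖ ≤
      1 / (4 * θ) := by
    intro q
    have h1 := local_digits hθ hC hr0 hr1 hN hB0 hCD0 (hx q) (fun j => hDB _ (hd q j))
      (fun j => hDI _ (hd q j)) hk1 hin
    refine h1.trans ?_
    have h2 : CD * (1 - r)⁻¹ * r ^ r0 + C * B * (1 - β)⁻¹ * r ^ k +
        (1 + C) * B * (1 - β)⁻¹ * β ^ r0 ≤ 1 / (32 * θ) := by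
      have h3 : 1 / (32 * θ) = 1 / (64 * θ) + 1 / (64 * θ) := by
        field_simp
        norm_num
      rw [h3]
      linarith
    have h4 := Real.pi_lt_d2
    have h5 := Real.pi_pos
    calc 2 * Real.pi * (CD * (1 - r)⁻¹ * r ^ r0 + C * B * (1 - β)⁻¹ * r ^ k +
        (1 + C) * B * (1 - β)⁻¹ * β ^ r0) ≤ 2 * Real.pi * (1 / (32 * θ)) := by
          gcongr
      _ ≤ 8 * (1 / (32 * θ)) := by
          refine mul_le_mul_of_nonneg_right (by linarith) (by positivity)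
      _ = 1 / (4 * θ) := by
          field_simp
          norm_num
  have hmid : ∑ j ∈ Finset.Ico (k - r0) (k + n + r0), d q j * β ^ (j + 1) =
      ∑ j ∈ Finset.Ico (k - r0) (k + n + r0), d q' j * β ^ (j + 1) :=
    Finset.sum_congr rfl fun j hj => by rw [hsame j hj]
  have h1 := hloc q
  have h2 := hloc q'
  rw [← hmid] at h2
  have h3 := horb q
  have h4 := horb q'
  have h5 : e (t q * θ ^ i) - e (t q' * θ ^ i) =
      -(e ((N (k + i) : ℝ) * x q) - e (t q * θ ^ i)) +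
      (e ((N (k + i) : ℝ) * x q) -
        e ((N (k + i) : ℝ) * ∑ j ∈ Finset.Ico (k - r0) (k + n + r0), d q j * β ^ (j + 1))) -
      (e ((N (k + i) : ℝ) * x q') -
        e ((N (k + i) : ℝ) * ∑ j ∈ Finset.Ico (k - r0) (k + n + r0), d q j * β ^ (j + 1))) +
      (e ((N (k + i) : ℝ) * x q') - e (t q' * θ ^ i)) := by ring
  rw [h5] at hsep
  have h6 := hsep.trans ((norm_add_le _ _).trans (add_le_add ((norm_sub_le _ _).trans
    (add_le_add (norm_add_le _ _) le_rfl)) le_rfl))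
  rw [norm_neg] at h6
  have h7 : 1 / θ = 1 / (16 * θ) + 1 / (4 * θ) + 1 / (4 * θ) + 1 / (16 * θ) + 3 / (8 * θ) := by
    field_simp
    norm_num
  have h8 : 0 < 3 / (8 * θ) := by positivity
  linarith

end HM

end Forcing
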