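import Pool.Agent.Lib.MP_c80ac4_an.HM.TP
import Pool.Agent.Lib.MP_c80ac4_an.HS.Approx

/-! # Analytic bumps on the torus: exponentials of half-space polynomials -/

namespace Forcing.HM

open Forcing.Ratio Filter Topology

variable {m : ℕ}

/-- the real part -/
noncomputable def cs (y : ℝ) : ℝ := (1 + Real.cos (2 * Real.pi * y)) / 2

theorem cs_nonneg (y : ℝ) : 0 ≤ cs y := by
  unfold cs
  linarith [Real.neg_one_le_cos (2 * Real.pi * y)]

theorem cs_le_one (y : ℝ) : cs y ≤ 1 := by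
  unfold cs
  linarith [Real.cos_le_one (2 * Real.pi * y)]

theorem cs_zero : cs 0 = 1 := by
  unfold cs
  simp

theorem e_eq (y : ℝ) : e y = ((Real.cos (2 * Real.pi * y) : ℝ) : ℂ) +
    ((Real.sin (2 * Real.pi * y) : ℝ) : ℂ) * Complex.I := by
  unfold e
  rw [Complex.exp_mul_I, Complex.ofReal_cos, Complex.ofReal_sin]

theorem cs_eq (y : ℝ) : ((cs y : ℝ) : ℂ) = 1 / 2 + 1 / 4 * e y + 1 / 4 * e (-y) := by
  rw [e_eq, e_eq]
  unfold cs
  rw [show 2 * Real.pi * -y = -(2 * Real.pi * y) by ring, Real.cos_neg, Real.sin_neg]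
  push_cast
  ring

/-- away from the integers the cosine is at most that of the distance -/
theorem cos_le_of_far {y η : ℝ} (hη : 0 < η) (h : ∀ l : ℤ, η ≤ |y - l|) :
    η ≤ 1 / 2 ∧ Real.cos (2 * Real.pi * y) ≤ Real.cos (2 * Real.pi * η) := by
  have h1 := h (round y)
  have h2 := abs_sub_round y
  refine ⟨h1.trans h2, ?_⟩
  have h3 : Real.cos (2 * Real.pi * y) = Real.cos (2 * Real.pi * |y - round y|) := by
    rw [← abs_of_pos Real.two_pi_pos, ← abs_mul, Real.cos_abs, abs_of_pos Real.two_pi_pos, mul_sub]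
    have := Real.cos_sub_int_mul_two_pi (2 * Real.pi * y) (round y)
    rw [← this]
    congr 1
    ring
  rw [h3]
  refine Real.cos_le_cos_of_nonneg_of_le_pi (by have := Real.pi_pos; positivity) ?_ ?_
  · have := Real.pi_pos
    nlinarith
  · have := Real.pi_pos
    gcongr

theorem cs_far {y η : ℝ} (hη : 0 < η) (h : ∀ l : ℤ, η ≤ |y - l|) : cs y ≤ cs η := by
  unfold cs
  linarith [(cos_le_of_far hη h).2]

theorem cs_lt_one {η : ℝ} (hη : 0 < η) (h : η ≤ 1 / 2) : cs η < 1 := by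
  unfold cs
  have h1 : Real.cos (2 * Real.pi * η) < Real.cos 0 := by
    refine Real.cos_lt_cos_of_nonneg_of_le_pi le_rfl ?_ ?_
    · have := Real.pi_pos
      nlinarith
    · have := Real.pi_pos
      positivity
  rw [Real.cos_zero] at h1
  linarith

theorem ch_single (i : Fin m) (l : ℤ) (x : Fin m → ℝ) :
    ch (Pi.single i l) x = e ((l : ℝ) * x i) := by
  classical
  unfold ch
  congr 1
  rw [Finset.sum_eq_single i]
  · rw [Pi.single_eq_same]
  · intro k _ hk
    rw [Pi.single_eq_of_ne hk]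
    simp
  · intro h
    exact absurd (Finset.mem_univ i) h

theorem single_mem_box (i : Fin m) (l : ℤ) (D : ℕ) (h : |l| ≤ D) :
    (Pi.single i l : Fin m → ℤ) ∈ Box m D := by
  classical
  intro k
  by_cases hk : k = i
  · subst hk
    rw [Pi.single_eq_same]
    exact h
  · rw [Pi.single_eq_of_ne hk]
    simp

theorem rep_single (i : Fin m) (l : ℤ) (y0 : ℝ) (D : ℕ) (h : |l| ≤ D) (c : ℂ) :
    Rep (Box m D) ‖c‖ (fun x => c * e ((l : ℝ) * (x i - y0))) := by
  classical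
  refine ⟨{Pi.single i l}, fun _ => c * e (-(l : ℝ) * y0), ?_, ?_, fun x => ?_⟩
  · intro j hj
    rw [Finset.mem_singleton] at hj
    rw [hj]
    exact single_mem_box i l D h
  · simp [norm_e]
  · have h1 : (l : ℝ) * (x i - y0) = -(l : ℝ) * y0 + (l : ℝ) * x i := by ring
    simp only
    rw [Finset.sum_singleton, ch_single, mul_assoc, ← e_add, h1]

theorem rep_cs (i : Fin m) (y0 : ℝ) : Rep (Box m 1) 1 (fun x => ((cs (x i - y0) : ℝ) : ℂ)) := by
  have h1 := rep_const (S := Box m 1) (zero_mem_box 1) (1 / 2 : ℂ)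
  have h2 := rep_single i 1 y0 1 (by simp) (1 / 4 : ℂ)
  have h3 := rep_single i (-1) y0 1 (by simp) (1 / 4 : ℂ)
  refine (((h1.add h2).add h3).mono le_rfl (le_of_eq ?_)).congr fun x => ?_
  · norm_num
  · rw [cs_eq]
    push_cast
    rw [one_mul, neg_one_mul]

theorem rep_prod_box {ι : Type*} (t : Finset ι) {f : ι → (Fin m → ℝ) → ℂ}
    (h : ∀ i ∈ t, Rep (Box m 1) 1 (f i)) :
    Rep (Box m t.card) 1 (fun x => ∏ i ∈ t, f i x) := by
  classical
  induction t using Finset.induction_on with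
  | empty =>
    refine ((rep_const (zero_mem_box _) 1).mono le_rfl (by simp)).congr fun x => by simp
  | insert a t ha ih =>
    have h1 := (h a (Finset.mem_insert_self _ _)).mul
      (ih fun i hi => h i (Finset.mem_insert_of_mem hi)) (S'' := Box m (insert a t).card)
      fun j hj k hk => by
        rw [Finset.card_insert_of_notMem ha, add_comm]
        exact box_add hj hk
    refine (h1.mono le_rfl (by norm_num)).congr fun x => ?_
    rw [Finset.prod_insert ha]

/-- A nonnegative bump. -/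
theorem exists_bump_poly (x0 : Fin m → ℝ) (M : ℕ) :
    ∃ (T : (Fin m → ℝ) → ℝ) (a : (Fin m → ℤ) → ℂ), (∀ x, 0 ≤ T x ∧ T x ≤ 1) ∧ T x0 = 1 ∧
      (∀ η : ℝ, 0 < η → ∀ x, (∃ i, ∀ l : ℤ, η ≤ |x i - x0 i - l|) → T x ≤ cs η ^ M) ∧
      ∀ x, ((T x : ℝ) : ℂ) = ∑ j ∈ boxF m (M * m), a j * ch j x := by
  have h1 : Rep (Box m m) 1 (fun x => ∏ i : Fin m, ((cs (x i - x0 i) : ℝ) : ℂ)) := by
    have := rep_prod_box (m := m) (Finset.univ : Finset (Fin m))
      (f := fun i x => ((cs (x i - x0 i) : ℝ) : ℂ)) fun i _ => rep_cs i (x0 i)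
    rwa [Finset.card_univ, Fintype.card_fin] at this
  obtain ⟨a, -, ha⟩ := (h1.pow_box M).full
  refine ⟨fun x => (∏ i : Fin m, cs (x i - x0 i)) ^ M, a, fun x => ⟨?_, ?_⟩, ?_, ?_, ?_⟩
  · exact pow_nonneg (Finset.prod_nonneg fun i _ => cs_nonneg _) _
  · exact pow_le_one₀ (Finset.prod_nonneg fun i _ => cs_nonneg _)
      (Finset.prod_le_one (fun i _ => cs_nonneg _) fun i _ => cs_le_one _)
  · simp [cs_zero]
  · intro η hη x ⟨i, hi⟩
    refine pow_le_pow_left₀ (Finset.prod_nonneg fun i _ => cs_nonneg _) ?_ M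
    rw [← Finset.mul_prod_erase _ _ (Finset.mem_univ i)]
    calc cs (x i - x0 i) * ∏ k ∈ Finset.univ.erase i, cs (x k - x0 k) ≤ cs η * 1 :=
          mul_le_mul (cs_far hη hi) (Finset.prod_le_one (fun i _ => cs_nonneg _)
            fun i _ => cs_le_one _) (Finset.prod_nonneg fun i _ => cs_nonneg _) (cs_nonneg _)
      _ = cs η := mul_one _
  · intro x
    rw [← ha x]
    push_cast
    rfl

/-- frequencies in the half-space -/
def Pos (ρ : Fin m → ℝ) : Set (Fin m → ℤ) := {j | 0 < ∑ i, (j i : ℝ) * ρ i}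

theorem pos_add {ρ : Fin m → ℝ} {j k : Fin m → ℤ} (hj : j ∈ Pos ρ) (hk : k ∈ Pos ρ) :
    j + k ∈ Pos ρ := by
  have h1 : 0 < ∑ i, (j i : ℝ) * ρ i := hj
  have h2 : 0 < ∑ i, (k i : ℝ) * ρ i := hk
  have h3 : ∑ i, (((j + k) i : ℤ) : ℝ) * ρ i = ∑ i, (j i : ℝ) * ρ i + ∑ i, (k i : ℝ) * ρ i := by
    rw [← Finset.sum_add_distrib]
    refine Finset.sum_congr rfl fun i _ => ?_
    rw [Pi.add_apply]
    push_cast
    ring
  show 0 < ∑ i, (((j + k) i : ℤ) : ℝ) * ρ i
  linarith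

theorem Rep.pow_pos {ρ : Fin m → ℝ} {B : ℝ} {f : (Fin m → ℝ) → ℂ} (h : Rep (Pos ρ) B f) (n : ℕ) :
    Rep (Pos ρ) (B ^ (n + 1)) (fun x => f x ^ (n + 1)) := by
  induction n with
  | zero => simpa using h
  | succ n ih =>
    rw [pow_succ]
    exact (ih.mul h (S'' := Pos ρ) fun j hj k hk => pos_add hj hk).congr fun x => pow_succ _ _

/-- A half-space polynomial with very negative real part off a box, relative to its mean. -/
theorem exists_g {ρ : Fin m → ℝ} (hρ : ∀ j : Fin m → ℤ, ∑ i, (j i : ℝ) * ρ i = 0 → j = 0)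
    (x0 : Fin m → ℝ) {η : ℝ} (hη : 0 < η) :
    ∃ (B : ℝ) (g : (Fin m → ℝ) → ℂ), Rep (Pos ρ) B g ∧
      ∀ x, (∃ i, ∀ l : ℤ, η ≤ |x i - x0 i - l|) → (g x).re ≤ -3 / 4 := by
  classical
  rcases lt_or_ge (1 / 2) η with hη2 | hη2
  · refine ⟨0, fun _ => 0, rep_zero, fun x ⟨i, hi⟩ => ?_⟩
    exact absurd (cos_le_of_far hη hi).1 (not_le.2 hη2)
  -- the choice of M
  have hκ := cs_lt_one hη hη2
  obtain ⟨M, hM1, hM⟩ : ∃ M : ℕ, 1 ≤ M ∧
      cs η ^ M * ((2 * (M * m) + 1 : ℕ) : ℝ) ^ m ≤ 1 / 4 := by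
    have h1 := tendsto_pow_const_mul_const_pow_of_abs_lt_one m
      (show |cs η| < 1 by rw [abs_of_nonneg (cs_nonneg _)]; exact hκ)
    have h2 := h1.const_mul (((2 * m + 1 : ℕ) : ℝ) ^ m)
    rw [mul_zero] at h2
    obtain ⟨M, h3, h4⟩ := ((h2.eventually_le_const (show (0 : ℝ) < 1 / 4 by norm_num)).and
      (eventually_ge_atTop 1)).exists
    refine ⟨M, h4, le_trans ?_ h3⟩
    have h5 : ((2 * (M * m) + 1 : ℕ) : ℝ) ^ m ≤ (((2 * m + 1 : ℕ) : ℝ) * (M : ℝ)) ^ m := by
      refine pow_le_pow_left₀ (by positivity) ?_ m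
      exact_mod_cast (by nlinarith : 2 * (M * m) + 1 ≤ (2 * m + 1) * M)
    calc cs η ^ M * ((2 * (M * m) + 1 : ℕ) : ℝ) ^ m ≤
          cs η ^ M * (((2 * m + 1 : ℕ) : ℝ) * (M : ℝ)) ^ m :=
          mul_le_mul_of_nonneg_left h5 (pow_nonneg (cs_nonneg _) _)
      _ = _ := by rw [mul_pow]; ring
  obtain ⟨T, a, hT01, hTx0, hTfar, hTa⟩ := exists_bump_poly x0 M
  set D : ℕ := M * m with hD
  set N : ℕ := 2 * D + 1 with hN
  have hbox : ∀ j ∈ boxF m D, j ∈ Box m D := fun j hj => mem_boxF.1 hj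
  have h0mem : (0 : Fin m → ℤ) ∈ boxF m D := mem_boxF.2 (zero_mem_box D)
  have hNpos : (0 : ℝ) < (N : ℝ) ^ m := by positivity
  have hNc : ((N : ℕ) : ℂ) ^ m ≠ 0 := by
    have : ((N : ℕ) : ℂ) ≠ 0 := by
      rw [Nat.cast_ne_zero]; omega
    exact pow_ne_zero _ this
  have hcoef : ∀ j ∈ boxF m D, ((N : ℕ) : ℂ) ^ m * a j =
      ∑ g : Fin m → Fin N, ((T (gp N g) : ℝ) : ℂ) * ch (-j) (gp N g) := by
    intro j hj
    rw [coef_eq hbox a hj]
    exact Finset.sum_congr rfl fun g _ => by rw [← hTa]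
  set τ : ℝ := (∑ g : Fin m → Fin N, T (gp N g)) / (N : ℝ) ^ m with hτ
  have ha0 : a 0 = (τ : ℂ) := by
    have h1 := hcoef 0 h0mem
    have h2 : (∑ g : Fin m → Fin N, ((T (gp N g) : ℝ) : ℂ) * ch (-0) (gp N g)) =
        ((∑ g : Fin m → Fin N, T (gp N g) : ℝ) : ℂ) := by
      push_cast
      refine Finset.sum_congr rfl fun g _ => ?_
      rw [neg_zero, ch_zero, mul_one]
    rw [h2] at h1
    rw [hτ]
    push_cast
    rw [eq_div_iff hNc]
    rw [← Complex.ofReal_sum] at *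
    linear_combination h1
  have hle : ∀ j ∈ boxF m D, ‖a j‖ ≤ τ := by
    intro j hj
    have h1 := hcoef j hj
    have h2 : ‖((N : ℕ) : ℂ) ^ m * a j‖ ≤ ∑ g : Fin m → Fin N, T (gp N g) := by
      rw [h1]
      refine (norm_sum_le _ _).trans (Finset.sum_le_sum fun g _ => ?_)
      rw [norm_mul, norm_ch, mul_one, Complex.norm_real, Real.norm_of_nonneg (hT01 _).1]
    rw [norm_mul, norm_pow, Complex.norm_natCast] at h2
    rw [hτ, le_div_iff₀ hNpos]
    linarith
  have hτ1 : 1 ≤ (N : ℝ) ^ m * τ := by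
    have h1 : ‖((T x0 : ℝ) : ℂ)‖ ≤ ∑ j ∈ boxF m D, ‖a j‖ := by
      rw [hTa]
      refine (norm_sum_le _ _).trans (le_of_eq ?_)
      exact Finset.sum_congr rfl fun j _ => by rw [norm_mul, norm_ch, mul_one]
    rw [hTx0] at h1
    simp only [Complex.ofReal_one, norm_one] at h1
    refine h1.trans ?_
    calc ∑ j ∈ boxF m D, ‖a j‖ ≤ ∑ _j ∈ boxF m D, τ := Finset.sum_le_sum hle
      _ = (N : ℝ) ^ m * τ := by
          rw [Finset.sum_const, card_boxF, nsmul_eq_mul]
          push_cast [hN]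
          ring
  have hτ0 : 0 < τ := by
    by_contra h
    push Not at h
    nlinarith
  have hconj : ∀ j ∈ boxF m D, a (-j) = (starRingEnd ℂ) (a j) := by
    intro j hj
    have hj' : -j ∈ boxF m D := by
      rw [mem_boxF] at hj ⊢
      intro i
      rw [Pi.neg_apply, abs_neg]
      exact hj i
    have h1 := hcoef _ hj'
    have h2 : (starRingEnd ℂ) (((N : ℕ) : ℂ) ^ m * a j) =
        ∑ g : Fin m → Fin N, ((T (gp N g) : ℝ) : ℂ) * ch (- -j) (gp N g) := by
      rw [hcoef j hj, map_sum]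
      refine Finset.sum_congr rfl fun g _ => ?_
      rw [map_mul, Complex.conj_ofReal, ← ch_neg]
    rw [← h1, map_mul, map_pow, Complex.conj_natCast] at h2
    exact (mul_left_cancel₀ hNc h2).symm
  set P : Finset (Fin m → ℤ) := (boxF m D).filter (fun j => 0 < ∑ i, (j i : ℝ) * ρ i) with hP
  refine ⟨∑ j ∈ P, ‖(2 / τ : ℂ) * a j‖, fun x => ∑ j ∈ P, (2 / τ : ℂ) * a j * ch j x,
    ⟨P, fun j => (2 / τ : ℂ) * a j, fun j hj => (Finset.mem_filter.1 hj).2, le_rfl,
      fun x => rfl⟩, fun x hx => ?_⟩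
  -- the real part
  have hre : (∑ j ∈ P, (2 / τ : ℂ) * a j * ch j x).re = T x / τ - 1 := by
    set G : ℂ := ∑ j ∈ P, (2 / τ : ℂ) * a j * ch j x with hG
    set P' : Finset (Fin m → ℤ) := (boxF m D).filter (fun j => ∑ i, (j i : ℝ) * ρ i < 0) with hP'
    have hneg : ∀ j : Fin m → ℤ, ∑ i, (((-j) i : ℤ) : ℝ) * ρ i = - ∑ i, (j i : ℝ) * ρ i := by
      intro j
      rw [← Finset.sum_neg_distrib]
      refine Finset.sum_congr rfl fun i _ => ?_
      rw [Pi.neg_apply]
      push_cast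
      ring
    have hnegbox : ∀ j, j ∈ boxF m D → -j ∈ boxF m D := by
      intro j hj
      rw [mem_boxF] at hj ⊢
      intro i
      rw [Pi.neg_apply, abs_neg]
      exact hj i
    have hGc : (starRingEnd ℂ) G = ∑ j ∈ P', (2 / τ : ℂ) * a j * ch j x := by
      rw [hG, map_sum]
      refine Finset.sum_bij' (fun j _ => -j) (fun j _ => -j) ?_ ?_ ?_ ?_ ?_
      · intro j hj
        rw [hP, Finset.mem_filter] at hj
        rw [hP', Finset.mem_filter]
        refine ⟨hnegbox j hj.1, ?_⟩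
        rw [hneg]
        linarith [hj.2]
      · intro j hj
        rw [hP', Finset.mem_filter] at hj
        rw [hP, Finset.mem_filter]
        refine ⟨hnegbox j hj.1, ?_⟩
        rw [hneg]
        linarith [hj.2]
      · intro j _
        exact neg_neg j
      · intro j _
        exact neg_neg j
      · intro j hj
        rw [hP, Finset.mem_filter] at hj
        have hc : (starRingEnd ℂ) (2 / (τ : ℂ)) = 2 / (τ : ℂ) := by
          have h2 : (2 / (τ : ℂ)) = ((2 / τ : ℝ) : ℂ) := by push_cast; rfl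
          rw [h2, Complex.conj_ofReal]
        rw [map_mul, map_mul, hc, hconj j hj.1, ch_neg]
    have hsum : G + (starRingEnd ℂ) G = (2 / τ : ℂ) * (((T x : ℝ) : ℂ) - a 0) := by
      rw [hGc, hG, hTa x]
      have hsplit : ∑ j ∈ boxF m D, a j * ch j x = a 0 * ch 0 x +
          (∑ j ∈ P, a j * ch j x + ∑ j ∈ P', a j * ch j x) := by
        rw [← Finset.add_sum_erase _ _ h0mem]
        congr 1
        have hdisj : Disjoint P P' := by
          rw [Finset.disjoint_left]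
          intro j hj hj'
          rw [hP, Finset.mem_filter] at hj
          rw [hP', Finset.mem_filter] at hj'
          linarith [hj.2, hj'.2]
        rw [← Finset.sum_union hdisj]
        refine Finset.sum_congr ?_ fun _ _ => rfl
        ext j
        rw [Finset.mem_erase, Finset.mem_union, hP, hP', Finset.mem_filter, Finset.mem_filter]
        constructor
        · rintro ⟨h1, h2⟩
          rcases lt_trichotomy (∑ i, (j i : ℝ) * ρ i) 0 with h3 | h3 | h3
          · exact Or.inr ⟨h2, h3⟩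
          · exact absurd (hρ j h3) h1
          · exact Or.inl ⟨h2, h3⟩
        · rintro (⟨h1, h2⟩ | ⟨h1, h2⟩)
          · refine ⟨fun h => ?_, h1⟩
            rw [h] at h2
            simp at h2
          · refine ⟨fun h => ?_, h1⟩
            rw [h] at h2
            simp at h2
      rw [hsplit, ch_zero, mul_one, add_sub_cancel_left, mul_add, Finset.mul_sum, Finset.mul_sum]
      congr 1
      · exact Finset.sum_congr rfl fun j _ => by ring
      · exact Finset.sum_congr rfl fun j _ => by ring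
    rw [ha0, Complex.add_conj] at hsum
    have h1 : ((2 * G.re : ℝ) : ℂ) = ((2 / τ * (T x - τ) : ℝ) : ℂ) := by
      push_cast at hsum ⊢
      exact hsum
    have h2 : 2 * G.re = 2 / τ * (T x - τ) := by exact_mod_cast h1
    have h3 : 2 / τ * (T x - τ) = 2 * (T x / τ - 1) := by
      field_simp
    linarith
  rw [hre]
  have h1 := hTfar η hη x hx
  have h2 : T x / τ ≤ 1 / 4 := by
    rw [div_le_iff₀ hτ0]
    have h3 : cs η ^ M ≤ cs η ^ M * ((N : ℝ) ^ m * τ) :=
      le_mul_of_one_le_right (pow_nonneg (cs_nonneg _) _) hτ1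
    have h4 : cs η ^ M * ((N : ℝ) ^ m * τ) = (cs η ^ M * (N : ℝ) ^ m) * τ := by ring
    calc T x ≤ (cs η ^ M * (N : ℝ) ^ m) * τ := by rw [← h4]; exact h1.trans h3
      _ ≤ 1 / 4 * τ := mul_le_mul_of_nonneg_right hM hτ0.le
  linarith

/-- A half-space polynomial `h` with `|1 + h| ≤ 1 / 2` off a box. -/
theorem exists_h {ρ : Fin m → ℝ} (hρ : ∀ j : Fin m → ℤ, ∑ i, (j i : ℝ) * ρ i = 0 → j = 0)
    (x0 : Fin m → ℝ) {η : ℝ} (hη : 0 < η) :
    ∃ (B : ℝ) (h : (Fin m → ℝ) → ℂ), Rep (Pos ρ) B h ∧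
      ∀ x, (∃ i, ∀ l : ℤ, η ≤ |x i - x0 i - l|) → ‖1 + h x‖ ≤ 1 / 2 := by
  obtain ⟨B, g, hg, hre⟩ := exists_g hρ x0 hη
  have hB := hg.nonneg
  -- order of the exponential sum
  have h1 : Tendsto (fun n : ℕ => B ^ n / n.factorial * 2) atTop (𝓝 (0 * 2)) :=
    (FloorSemiring.tendsto_pow_div_factorial_atTop B).mul_const 2
  rw [zero_mul] at h1
  obtain ⟨n, hn1, hn2, hn3⟩ := ((h1.eventually_le_const (show (0 : ℝ) < 1 / 200 by norm_num)).and
    ((eventually_ge_atTop 1).and (tendsto_natCast_atTop_atTop.eventually_ge_atTop (2 * B)))).exists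
  obtain ⟨k, rfl⟩ : ∃ k, n = k + 1 := ⟨n - 1, by omega⟩
  refine ⟨∑ i ∈ Finset.range k, ‖(1 / ((i + 1).factorial : ℂ))‖ * B ^ (i + 1),
    fun x => ∑ i ∈ Finset.range k, 1 / ((i + 1).factorial : ℂ) * g x ^ (i + 1),
    Rep.sum _ fun i _ => (hg.pow_pos i).const_mul _, fun x hx => ?_⟩
  have h2 : 1 + ∑ i ∈ Finset.range k, 1 / ((i + 1).factorial : ℂ) * g x ^ (i + 1) =
      ∑ i ∈ Finset.range (k + 1), g x ^ i / (i.factorial : ℂ) := by
    rw [Finset.sum_range_succ', pow_zero, Nat.factorial_zero, Nat.cast_one, div_one, add_comm]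
    congr 1
    exact Finset.sum_congr rfl fun i _ => by ring
  rw [h2]
  have hgB := hg.norm_le x
  have h3 : ‖g x‖ / (k + 1).succ ≤ 1 / 2 := by
    rw [div_le_iff₀ (by positivity)]
    push_cast at hn3 ⊢
    linarith
  have h4 := Complex.exp_bound' h3
  have h5 : ‖g x‖ ^ (k + 1) / (k + 1).factorial * 2 ≤ 1 / 200 := by
    refine le_trans ?_ hn1
    gcongr
  have h6 : ‖Complex.exp (g x)‖ ≤ Real.exp (-(3 / 4)) := by
    rw [Complex.norm_exp]
    exact Real.exp_le_exp.2 (by linarith [hre x hx])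
  have h7 : Real.exp (-(3 / 4)) ≤ 64 / 130 := by
    rw [Real.exp_neg, inv_le_comm₀ (Real.exp_pos _) (by norm_num)]
    have := Real.quadratic_le_exp_of_nonneg (show (0 : ℝ) ≤ 3 / 4 by norm_num)
    refine le_trans ?_ this
    norm_num
  have h8 : ∑ i ∈ Finset.range (k + 1), g x ^ i / (i.factorial : ℂ) = Complex.exp (g x) -
      (Complex.exp (g x) - ∑ i ∈ Finset.range (k + 1), g x ^ i / (i.factorial : ℂ)) := by ring
  rw [h8]
  refine (norm_sub_le _ _).trans ?_
  linarith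

end Forcing.HM
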