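import Pool.Agent.Lib.MP_c80ac4_an.HM.Bump

/-! # Off a box the constant one can be replaced by a half-space polynomial -/

namespace Forcing.HM

open Forcing.Ratio Filter Topology

variable {m : ℕ}

theorem exp_eq_e (t : ℝ) : Complex.exp (t * Complex.I) = e (t / (2 * Real.pi)) := by
  unfold e
  congr 2
  have := Real.pi_pos
  push_cast
  field_simp

theorem norm_e_sub_one_sq (y : ℝ) : ‖e y - 1‖ ^ 2 = 2 - 2 * Real.cos (2 * Real.pi * y) := by
  unfold e
  exact HS.norm_exp_sub_one_sq _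

theorem e_sub_int (y : ℝ) (l : ℤ) : e (y - l) = e y := by
  have h1 : e y = e (y - l) * e l := by rw [← e_add]; congr 1; ring
  rw [h1, e_int, mul_one]

/-- A continuous function on the circle that is one near zero, zero away from zero, between zero
and one and has an absolutely convergent Fourier series. -/
theorem exists_trap {η : ℝ} (hη : 0 < η) :
    ∃ (η' : ℝ) (tr : ℝ → ℝ) (τ : ℤ → ℂ), 0 < η' ∧ (∀ y : ℝ, 0 ≤ tr y ∧ tr y ≤ 1) ∧
      (∀ y : ℝ, (∀ l : ℤ, η ≤ |y - l|) → tr y = 0) ∧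
      (∀ y : ℝ, (∃ l : ℤ, |y - l| < η') → tr y = 1) ∧
      (Summable fun l => ‖τ l‖) ∧ ∀ y : ℝ, HasSum (fun l : ℤ => τ l * e ((l : ℝ) * y)) ((tr y : ℝ) : ℂ) := by
  rcases lt_or_ge (1 / 2) η with hη2 | hη2
  · refine ⟨1, fun _ => 1, fun l => if l = 0 then 1 else 0, one_pos, fun _ => ⟨zero_le_one, le_rfl⟩,
      fun y hy => absurd (cos_le_of_far hη hy).1 (not_le.2 hη2), fun _ _ => rfl, ?_, fun y => ?_⟩
    · refine summable_of_ne_finset_zero (s := {0}) fun l hl => ?_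
      simp only
      rw [if_neg (by simpa using hl), norm_zero]
    · have := hasSum_single (f := fun l : ℤ => (if l = 0 then (1 : ℂ) else 0) * e ((l : ℝ) * y)) 0
        fun l hl => by rw [if_neg hl, zero_mul]
      simpa [e_zero] using this
  -- the chord
  set δ : ℝ := 2 - 2 * Real.cos (2 * Real.pi * η) with hδ
  have hδ0 : 0 < δ := by
    have h1 := cs_lt_one hη hη2
    unfold cs at h1
    rw [hδ]
    linarith
  set u : ℝ → ℝ := fun t => (2 - 2 * Real.cos t - δ / 4) / (3 * δ / 4) with hu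
  set χ : ℝ → ℂ := fun t => ((1 - Real.smoothTransition (u t) : ℝ) : ℂ) with hχ
  have huc : ContDiff ℝ 2 u := by
    rw [hu]
    have := Real.contDiff_cos (n := 2)
    fun_prop
  have hχc : ContDiff ℝ 2 χ :=
    Complex.ofRealCLM.contDiff.comp
      (contDiff_const.sub ((Real.smoothTransition.contDiff (n := 2)).comp huc))
  have hχp : Function.Periodic χ (2 * Real.pi) := by
    intro t
    simp only [hχ, hu, Real.cos_add_two_pi]
  have hsq : (0 : ℝ) < 3 * δ / 4 := by positivity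
  obtain ⟨d1, d2, d3⟩ := HS.diff_of_contDiff hχc
  have hpi : (2 * Real.pi : ℝ) ≠ 0 := by positivity
  obtain ⟨A1, hA1⟩ := HS.bdd_of_periodic hpi hχp d1.continuous
  obtain ⟨A3, hA3⟩ := HS.bdd_of_periodic hpi (HS.periodic_deriv (HS.periodic_deriv hχp)) d3
  obtain ⟨c, c1, -, c3⟩ := HS.exists_fourier hχp (HS.periodic_deriv hχp)
    (fun t => (d1 t).hasDerivAt) (fun t => (d2 t).hasDerivAt) d3 (A := max A1 A3)
    (fun t => (hA1 t).trans (le_max_left _ _)) (fun t => (hA3 t).trans (le_max_right _ _))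
  refine ⟨Real.sqrt (δ / 4) / (2 * Real.pi),
    fun y => 1 - Real.smoothTransition (u (2 * Real.pi * y)), c, by positivity, fun y => ⟨?_, ?_⟩,
    fun y hy => ?_, fun y hy => ?_, c1, fun y => ?_⟩
  · linarith [Real.smoothTransition.le_one (u (2 * Real.pi * y))]
  · linarith [Real.smoothTransition.nonneg (u (2 * Real.pi * y))]
  · have h1 := (cos_le_of_far hη hy).2
    have h2 : 1 ≤ u (2 * Real.pi * y) := by
      simp only [hu]
      rw [le_div_iff₀ hsq]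
      linarith
    simp only
    rw [Real.smoothTransition.one_of_one_le h2]
    ring
  · obtain ⟨l, hl⟩ := hy
    have h1 : ‖e y - 1‖ < Real.sqrt (δ / 4) := by
      rw [← e_sub_int y l]
      have h2 := e_sub_le (y - l) 0
      rw [e_zero, sub_zero] at h2
      rw [lt_div_iff₀ (by positivity)] at hl
      refine h2.trans_lt ?_
      linarith
    have h2 : ‖e y - 1‖ ^ 2 < δ / 4 := by
      have h3 : ‖e y - 1‖ ^ 2 < Real.sqrt (δ / 4) ^ 2 := by gcongr
      rwa [Real.sq_sqrt (by positivity)] at h3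
    rw [norm_e_sub_one_sq] at h2
    have h4 : u (2 * Real.pi * y) ≤ 0 := by
      simp only [hu]
      apply div_nonpos_of_nonpos_of_nonneg _ hsq.le
      linarith
    simp only
    rw [Real.smoothTransition.zero_of_nonpos h4]
    ring
  · have h1 := c3 (2 * Real.pi * y)
    simp only [hχ] at h1
    convert h1 using 2 with l
    congr 1
    rw [show (Complex.exp (((2 * Real.pi * y : ℝ) : ℂ) * Complex.I)) = e y from rfl]
    rcases Int.eq_nat_or_neg l with ⟨n, rfl | rfl⟩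
    · rw [zpow_natCast, e_pow]
      push_cast
      rfl
    · rw [zpow_neg, zpow_natCast, e_pow]
      push_cast
      rw [neg_mul, e_neg]
      have h2 : (starRingEnd ℂ) (e ((n : ℝ) * y)) * e ((n : ℝ) * y) = 1 := by
        rw [mul_comm, Complex.mul_conj, Complex.normSq_eq_norm_sq, norm_e]
        simp
      exact eq_inv_of_mul_eq_one_left h2

/-- products of close families -/
theorem rep_prod_diff {ι : Type*} (t : Finset ι) {K δ : ℝ} (hK : 1 ≤ K)
    {u v : ι → (Fin m → ℝ) → ℂ} (hu : ∀ i ∈ t, Rep Set.univ K (u i))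
    (hv : ∀ i ∈ t, Rep Set.univ K (v i))
    (huv : ∀ i ∈ t, Rep Set.univ δ (fun x => u i x - v i x)) :
    Rep (m := m) Set.univ (K ^ t.card) (fun x => ∏ i ∈ t, u i x) ∧
    Rep (m := m) Set.univ (t.card * K ^ t.card * δ)
      (fun x => ∏ i ∈ t, u i x - ∏ i ∈ t, v i x) := by
  classical
  induction t using Finset.induction_on with
  | empty =>
    refine ⟨?_, ?_⟩
    · exact ((rep_const (Set.mem_univ _) 1).mono le_rfl (by simp)).congr fun x => by simp
    · simpa using rep_zero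
  | insert a t ha ih =>
    obtain ⟨h1, h2⟩ := ih (fun i hi => hu i (Finset.mem_insert_of_mem hi))
      (fun i hi => hv i (Finset.mem_insert_of_mem hi))
      (fun i hi => huv i (Finset.mem_insert_of_mem hi))
    have hua := hu a (Finset.mem_insert_self _ _)
    have hva := hv a (Finset.mem_insert_self _ _)
    have hda := huv a (Finset.mem_insert_self _ _)
    have hδ := hda.nonneg
    rw [Finset.card_insert_of_notMem ha]
    refine ⟨?_, ?_⟩
    · rw [pow_succ, mul_comm]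
      exact (hua.mul h1 (S'' := Set.univ) fun _ _ _ _ => Set.mem_univ _).congr fun x =>
        Finset.prod_insert ha
    · have h3 := (hda.mul h1 (S'' := Set.univ) fun _ _ _ _ => Set.mem_univ _).add
        (hva.mul h2 (S'' := Set.univ) fun _ _ _ _ => Set.mem_univ _)
      refine (h3.mono le_rfl ?_).congr fun x => ?_
      · have h4 : K ^ t.card ≤ K ^ (t.card + 1) := pow_le_pow_right₀ hK (Nat.le_succ _)
        push_cast
        have h5 : K * (t.card * K ^ t.card * δ) = t.card * K ^ (t.card + 1) * δ := by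
          rw [pow_succ]; ring
        rw [h5]
        have h6 : δ * K ^ t.card ≤ K ^ (t.card + 1) * δ := by
          rw [mul_comm]
          exact mul_le_mul_of_nonneg_right h4 hδ
        linarith
      · rw [Finset.prod_insert ha, Finset.prod_insert ha]
        ring

theorem norm_pow_sub_one_le (z : ℂ) (n : ℕ) : ‖z ^ n - 1‖ ≤ (1 + ‖z - 1‖) ^ n - 1 := by
  induction n with
  | zero => simp
  | succ n ih =>
    have h1 : z ^ (n + 1) - 1 = z * (z ^ n - 1) + (z - 1) := by ring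
    have h2 : ‖z‖ ≤ 1 + ‖z - 1‖ := by
      have := norm_add_le (1 : ℂ) (z - 1)
      rwa [norm_one, add_sub_cancel] at this
    rw [h1]
    refine (norm_add_le _ _).trans ?_
    rw [norm_mul, pow_succ]
    have h3 := norm_nonneg (z ^ n - 1)
    nlinarith [norm_nonneg z, norm_nonneg (z - 1), mul_le_mul h2 ih h3 (by positivity)]

theorem prod_diff {ι : Type*} (t : Finset ι) {K δ : ℝ} (hK : 1 ≤ K) (hδ : 0 ≤ δ)
    {u v : ι → ℂ} (hu : ∀ i ∈ t, ‖u i‖ ≤ K) (hv : ∀ i ∈ t, ‖v i‖ ≤ K)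
    (huv : ∀ i ∈ t, ‖u i - v i‖ ≤ δ) :
    ‖∏ i ∈ t, u i‖ ≤ K ^ t.card ∧ ‖∏ i ∈ t, u i - ∏ i ∈ t, v i‖ ≤ t.card * K ^ t.card * δ := by
  classical
  have key := rep_prod_diff (m := 0) t (K := K) (δ := δ) hK (u := fun i _ => u i)
    (v := fun i _ => v i)
    (fun i hi => (rep_const (Set.mem_univ _) (u i)).mono le_rfl (hu i hi))
    (fun i hi => (rep_const (Set.mem_univ _) (v i)).mono le_rfl (hv i hi))
    (fun i hi => (rep_const (Set.mem_univ _) (u i - v i)).mono le_rfl (huv i hi))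
  exact ⟨key.1.norm_le 0, key.2.norm_le 0⟩

/-- **Off a box the constant one can be replaced.** For every box of the torus, every rationally
independent direction and every `γ > 0` there is a fixed polynomial `P` with finitely many
frequencies in the open half-space such that off the box `1 - P` is, up to arbitrarily small errors,
a trigonometric polynomial with absolute coefficient sum at most `γ`. -/
theorem off_box {ρ : Fin m → ℝ} (hρ : ∀ j : Fin m → ℤ, ∑ i, (j i : ℝ) * ρ i = 0 → j = 0)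
    (x0 : Fin m → ℝ) {η γ : ℝ} (hη : 0 < η) (hγ : 0 < γ) :
    ∃ (S : Finset (Fin m → ℤ)) (a : (Fin m → ℤ) → ℂ), (∀ j ∈ S, j ∈ Pos ρ) ∧
      ∀ ε : ℝ, 0 < ε → ∃ (T : Finset (Fin m → ℤ)) (b : (Fin m → ℤ) → ℂ),
        ∑ j ∈ T, ‖b j‖ ≤ γ ∧ ∀ x, (∃ i, ∀ l : ℤ, η ≤ |x i - x0 i - l|) →
          ‖1 - ∑ j ∈ S, a j * ch j x - ∑ j ∈ T, b j * ch j x‖ ≤ ε := by
  classical
  obtain ⟨η', tr, τ, hη', htr, htr0, htr1, hτ, hτs⟩ := exists_trap hη
  obtain ⟨B, h, hh, hhalf⟩ := exists_h hρ x0 hη'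
  have hB := hh.nonneg
  set f : (Fin m → ℝ) → ℂ := fun x => 1 + h x with hf
  have hfrep : Rep (m := m) Set.univ (1 + B) f := by
    have h1 := (rep_const (S := (Set.univ : Set (Fin m → ℤ))) (Set.mem_univ _) 1).add
      (hh.mono (Set.subset_univ _) le_rfl)
    exact h1.mono le_rfl (by simp)
  -- partial sums of the cutoff
  set K : ℝ := 1 + ∑' l, ‖τ l‖ with hK
  have hK1 : 1 ≤ K := by
    have : 0 ≤ ∑' l, ‖τ l‖ := tsum_nonneg fun _ => norm_nonneg _
    linarith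
  set U : Finset ℤ → Fin m → (Fin m → ℝ) → ℂ :=
    fun Λ i x => ∑ l ∈ Λ, τ l * e ((l : ℝ) * (x i - x0 i)) with hU
  have hUdef : ∀ Λ : Finset ℤ, ∀ i, Rep (m := m) Set.univ (∑ l ∈ Λ, ‖τ l‖) (U Λ i) := by
    intro Λ i
    exact Rep.sum Λ fun l _ =>
      (rep_single i l (x0 i) l.natAbs (by rw [Int.abs_eq_natAbs]) (τ l)).mono
        (Set.subset_univ _) le_rfl
  have hUrep : ∀ Λ i, Rep (m := m) Set.univ K (U Λ i) := fun Λ i =>
    (hUdef Λ i).mono le_rfl (by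
      have := hτ.sum_le_tsum Λ fun _ _ => norm_nonneg _
      linarith)
  have hUdiff : ∀ Λ Λ' : Finset ℤ, Λ ⊆ Λ' → ∀ i, Rep (m := m) Set.univ
      (∑' l, ‖τ l‖ - ∑ l ∈ Λ, ‖τ l‖) (fun x => U Λ' i x - U Λ i x) := by
    intro Λ Λ' hΛ i
    have h1 := hUdef (Λ' \ Λ) i
    refine (h1.mono le_rfl ?_).congr fun x => ?_
    · have h2 := hτ.sum_le_tsum Λ' fun _ _ => norm_nonneg _
      rw [← Finset.sum_sdiff hΛ] at h2
      linarith
    · simp only [hU]
      rw [← Finset.sum_sdiff hΛ]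
      ring
  have htail : ∀ ε : ℝ, 0 < ε → ∃ Λ : Finset ℤ, ∀ Λ', Λ ⊆ Λ' →
      ∑' l, ‖τ l‖ - ∑ l ∈ Λ', ‖τ l‖ ≤ ε := by
    intro ε hε
    have h1 : Tendsto (fun Λ : Finset ℤ => ∑ l ∈ Λ, ‖τ l‖) atTop (𝓝 (∑' l, ‖τ l‖)) := hτ.hasSum
    obtain ⟨Λ, hΛ⟩ := Filter.eventually_atTop.1 (h1.eventually_const_le
      (show ∑' l, ‖τ l‖ - ε < ∑' l, ‖τ l‖ by linarith))
    exact ⟨Λ, fun Λ' h2 => by linarith [hΛ Λ' h2]⟩
  have hpt : ∀ (Λ : Finset ℤ) (i : Fin m) (x : Fin m → ℝ),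
      ‖((tr (x i - x0 i) : ℝ) : ℂ) - U Λ i x‖ ≤ ∑' l, ‖τ l‖ - ∑ l ∈ Λ, ‖τ l‖ := by
    intro Λ i x
    exact HS.norm_sub_sum_le hτ (fun l => by rw [norm_mul, norm_e, mul_one]) (hτs _) Λ
  set ψ : Finset ℤ → (Fin m → ℝ) → ℂ := fun Λ x => 1 - ∏ i, U Λ i x with hψ
  have hψ0 : ∀ Λ Λ' : Finset ℤ, Λ ⊆ Λ' → Rep (m := m) Set.univ
      (m * K ^ m * (∑' l, ‖τ l‖ - ∑ l ∈ Λ, ‖τ l‖)) (fun x => ψ Λ' x - ψ Λ x) := by
    intro Λ Λ' hΛ
    have h1 := (rep_prod_diff (Finset.univ : Finset (Fin m)) hK1 (fun i _ => hUrep Λ' i)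
      (fun i _ => hUrep Λ i) (fun i _ => hUdiff Λ Λ' hΛ i)).2
    rw [Finset.card_univ, Fintype.card_fin] at h1
    refine h1.neg.congr fun x => ?_
    simp only [hψ]
    ring
  have hψpt : ∀ (Λ : Finset ℤ) (x : Fin m → ℝ),
      ‖(1 - ∏ i, ((tr (x i - x0 i) : ℝ) : ℂ)) - ψ Λ x‖ ≤
        m * K ^ m * (∑' l, ‖τ l‖ - ∑ l ∈ Λ, ‖τ l‖) := by
    intro Λ x
    have h0 : 0 ≤ ∑' l, ‖τ l‖ - ∑ l ∈ Λ, ‖τ l‖ := by
      linarith [hτ.sum_le_tsum Λ fun _ _ => norm_nonneg _]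
    have h1 := (prod_diff (Finset.univ : Finset (Fin m)) hK1 h0
      (u := fun i => ((tr (x i - x0 i) : ℝ) : ℂ)) (v := fun i => U Λ i x)
      (fun i _ => by
        rw [Complex.norm_real, Real.norm_of_nonneg (htr _).1]
        exact (htr _).2.trans hK1)
      (fun i _ => (hUrep Λ i).norm_le x) (fun i _ => hpt Λ i x)).2
    rw [Finset.card_univ, Fintype.card_fin] at h1
    refine le_trans (le_of_eq ?_) h1
    simp only [hψ]
    rw [← norm_neg]
    congr 1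
    ring
  -- the product with `f` is at most one half
  have hψf : ∀ x, ‖(1 - ∏ i, ((tr (x i - x0 i) : ℝ) : ℂ)) * f x‖ ≤ 1 / 2 := by
    intro x
    by_cases hx : ∃ i, ∀ l : ℤ, η' ≤ |x i - x0 i - l|
    · have h1 : ‖(1 - ∏ i, ((tr (x i - x0 i) : ℝ) : ℂ))‖ ≤ 1 := by
        have h2 : (1 - ∏ i, ((tr (x i - x0 i) : ℝ) : ℂ)) =
            ((1 - ∏ i, tr (x i - x0 i) : ℝ) : ℂ) := by push_cast; rfl
        rw [h2, Complex.norm_real]
        have h3 : 0 ≤ ∏ i, tr (x i - x0 i) := Finset.prod_nonneg fun i _ => (htr _).1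
        have h4 : ∏ i, tr (x i - x0 i) ≤ 1 := Finset.prod_le_one (fun i _ => (htr _).1)
          fun i _ => (htr _).2
        rw [Real.norm_of_nonneg (by linarith)]
        linarith
      rw [norm_mul]
      calc ‖(1 - ∏ i, ((tr (x i - x0 i) : ℝ) : ℂ))‖ * ‖f x‖ ≤ 1 * (1 / 2) :=
            mul_le_mul h1 (hhalf x hx) (norm_nonneg _) zero_le_one
        _ = 1 / 2 := one_mul _
    · push Not at hx
      have h1 : ∏ i, ((tr (x i - x0 i) : ℝ) : ℂ) = 1 := by
        refine Finset.prod_eq_one fun i _ => ?_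
        rw [htr1 _ (hx i), Complex.ofReal_one]
      rw [h1, sub_self, zero_mul, norm_zero]
      norm_num
  -- the fixed polynomial part
  have hKm : 0 < m * K ^ m * (1 + B) + 1 := by positivity
  obtain ⟨Λ0, hΛ0⟩ := htail (1 / 8 / (m * K ^ m * (1 + B) + 1)) (by positivity)
  have hsmall : ∀ {t : ℝ} (c : ℝ), 0 < c → 0 ≤ t → t ≤ c / (m * K ^ m * (1 + B) + 1) →
      m * K ^ m * t * (1 + B) ≤ c := by
    intro t c hc ht0 ht
    rw [le_div_iff₀ hKm] at ht
    nlinarith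
  have hnn : ∀ Λ : Finset ℤ, 0 ≤ ∑' l, ‖τ l‖ - ∑ l ∈ Λ, ‖τ l‖ := fun Λ => by
    linarith [hτ.sum_le_tsum Λ fun _ _ => norm_nonneg _]
  set p : (Fin m → ℝ) → ℂ := fun x => ψ Λ0 x * f x with hp
  have hψrep : ∀ Λ, Rep (m := m) Set.univ (1 + K ^ m) (ψ Λ) := by
    intro Λ
    have h1 := (rep_prod_diff (Finset.univ : Finset (Fin m)) hK1 (fun i _ => hUrep Λ i)
      (fun i _ => hUrep Λ i) (fun i _ => (rep_zero (S := Set.univ)).congr
        fun x => by simp)).1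
    rw [Finset.card_univ, Fintype.card_fin] at h1
    have h2 := (rep_const (S := (Set.univ : Set (Fin m → ℤ))) (Set.mem_univ _) 1).sub h1
    exact h2.mono le_rfl (by simp)
  have hprep : Rep (m := m) Set.univ ((1 + K ^ m) * (1 + B)) p :=
    (hψrep Λ0).mul hfrep fun _ _ _ _ => Set.mem_univ _
  obtain ⟨D, hD⟩ := hprep.exists_box
  have hp58 : ∀ x, ‖p x‖ ≤ 5 / 8 := by
    intro x
    have h1 : p x = (1 - ∏ i, ((tr (x i - x0 i) : ℝ) : ℂ)) * f x -
        ((1 - ∏ i, ((tr (x i - x0 i) : ℝ) : ℂ)) - ψ Λ0 x) * f x := by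
      simp only [hp]; ring
    rw [h1]
    refine (norm_sub_le _ _).trans ?_
    have h2 : ‖((1 - ∏ i, ((tr (x i - x0 i) : ℝ) : ℂ)) - ψ Λ0 x) * f x‖ ≤ 1 / 8 := by
      rw [norm_mul]
      refine (mul_le_mul (hψpt Λ0 x) (hfrep.norm_le x) (norm_nonneg _)
        (mul_nonneg (by positivity) (hnn _))).trans ?_
      exact hsmall (1 / 8) (by norm_num) (hnn _) (hΛ0 Λ0 le_rfl)
    linarith [hψf x]
  -- the power
  obtain ⟨n, hn1, hn⟩ : ∃ n : ℕ, 1 ≤ n ∧
      ((2 * (n * D) + 1 : ℕ) : ℝ) ^ m * (5 / 8 + 1 / 8) ^ n ≤ γ := by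
    have h1 := tendsto_pow_const_mul_const_pow_of_abs_lt_one m
      (show |(3 / 4 : ℝ)| < 1 by rw [abs_of_nonneg (by norm_num)]; norm_num)
    have h2 := h1.const_mul (((2 * D + 1 : ℕ) : ℝ) ^ m)
    rw [mul_zero] at h2
    obtain ⟨n, h3, h4⟩ := ((h2.eventually_le_const hγ).and (eventually_ge_atTop 1)).exists
    refine ⟨n, h4, le_trans ?_ h3⟩
    have h5 : ((2 * (n * D) + 1 : ℕ) : ℝ) ^ m ≤ (((2 * D + 1 : ℕ) : ℝ) * (n : ℝ)) ^ m := by
      refine pow_le_pow_left₀ (by positivity) ?_ m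
      exact_mod_cast (by nlinarith : 2 * (n * D) + 1 ≤ (2 * D + 1) * n)
    calc ((2 * (n * D) + 1 : ℕ) : ℝ) ^ m * (5 / 8 + 1 / 8) ^ n ≤
          (((2 * D + 1 : ℕ) : ℝ) * (n : ℝ)) ^ m * (5 / 8 + 1 / 8) ^ n :=
          mul_le_mul_of_nonneg_right h5 (by positivity)
      _ = _ := by rw [mul_pow]; norm_num; ring
  -- the half-space polynomial
  have hP : ∃ B' : ℝ, Rep (Pos ρ) B' (fun x => 1 - f x ^ n) := by
    clear hn hn1
    induction n with
    | zero => exact ⟨0, rep_zero.congr fun x => by simp⟩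
    | succ n ih =>
      obtain ⟨B', hB'⟩ := ih
      have h1 := hh.neg.add (hB'.add (hh.mul hB' (S'' := Pos ρ) fun j hj k hk => pos_add hj hk))
      refine ⟨_, h1.congr fun x => ?_⟩
      rw [pow_succ]
      simp only [hf]
      ring
  obtain ⟨B', S, a, hS1, -, hS3⟩ := hP
  refine ⟨S, a, hS1, fun ε hε => ?_⟩
  -- the small part
  have hcont : Tendsto (fun t : ℝ => (1 + t) ^ n - 1) (𝓝 0) (𝓝 0) := by
    have : Continuous fun t : ℝ => (1 + t) ^ n - 1 := by fun_prop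
    simpa using this.tendsto 0
  obtain ⟨δ, hδ0, hδ⟩ := Metric.eventually_nhds_iff.1 (hcont.eventually_le_const hε)
  set δ' : ℝ := min (δ / 2) (1 / 8) with hδ'
  have hδ'0 : 0 < δ' := lt_min (by linarith) (by norm_num)
  obtain ⟨Λ1, hΛ1⟩ := htail (δ' / (m * K ^ m * (1 + B) + 1)) (by positivity)
  set Λ := Λ0 ∪ Λ1 with hΛ
  have hr : Rep (m := m) Set.univ (1 / 8) (fun x => (ψ Λ x - ψ Λ0 x) * f x) := by
    have h1 := (hψ0 Λ0 Λ Finset.subset_union_left).mul hfrep (S'' := Set.univ)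
      fun _ _ _ _ => Set.mem_univ _
    exact h1.mono le_rfl (hsmall (1 / 8) (by norm_num) (hnn _) (hΛ0 Λ0 le_rfl))
  obtain ⟨T, b, -, hT2, hT3⟩ := spectral hD hp58 hr n
  refine ⟨T, b, hT2.trans hn, fun x hx => ?_⟩
  rw [← hS3 x, ← hT3 x]
  show ‖1 - (1 - f x ^ n) - (p x + (ψ Λ x - ψ Λ0 x) * f x) ^ n‖ ≤ ε
  -- off the box the cutoff is one
  have hone : (∏ i, ((tr (x i - x0 i) : ℝ) : ℂ)) = 0 := by
    obtain ⟨i, hi⟩ := hx
    refine Finset.prod_eq_zero (Finset.mem_univ i) ?_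
    rw [htr0 _ hi, Complex.ofReal_zero]
  have hps : p x + (ψ Λ x - ψ Λ0 x) * f x = ψ Λ x * f x := by
    simp only [hp]; ring
  rw [hps]
  have hψ1 : ‖1 - ψ Λ x‖ ≤ m * K ^ m * (∑' l, ‖τ l‖ - ∑ l ∈ Λ, ‖τ l‖) := by
    have := hψpt Λ x
    rwa [hone, sub_zero] at this
  have ht := hΛ1 Λ Finset.subset_union_right
  have ht' : m * K ^ m * (∑' l, ‖τ l‖ - ∑ l ∈ Λ, ‖τ l‖) ≤ δ' := by
    rw [le_div_iff₀ hKm] at ht
    have h0 := hnn Λ
    have h1 : (0 : ℝ) ≤ m * K ^ m := by positivity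
    nlinarith [mul_nonneg h1 hB, mul_nonneg h0 (mul_nonneg h1 hB)]
  have hδψ : (1 + ‖1 - ψ Λ x‖) ^ n - 1 ≤ ε := by
    refine hδ ?_
    rw [Real.dist_eq, sub_zero, abs_of_nonneg (norm_nonneg _)]
    have : δ' ≤ δ / 2 := min_le_left _ _
    linarith
  have hfx : ‖f x‖ ≤ 1 / 2 := by
    refine hhalf x ?_
    obtain ⟨i, hi⟩ := hx
    refine ⟨i, fun l => ?_⟩
    by_contra hlt
    push Not at hlt
    have h1 := htr1 _ ⟨l, hlt⟩
    rw [htr0 _ hi] at h1
    exact zero_ne_one h1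
  have hfin : 1 - (1 - f x ^ n) - (ψ Λ x * f x) ^ n = -(f x ^ n * (ψ Λ x ^ n - 1)) := by
    rw [mul_pow]; ring
  rw [hfin, norm_neg, norm_mul, norm_pow]
  have h1 : ‖f x‖ ^ n ≤ 1 := pow_le_one₀ (norm_nonneg _) (by linarith)
  have h2 : ‖ψ Λ x ^ n - 1‖ ≤ ε := by
    refine (norm_pow_sub_one_le _ n).trans ?_
    rwa [norm_sub_rev] at hδψ
  calc ‖f x‖ ^ n * ‖ψ Λ x ^ n - 1‖ ≤ 1 * ε := mul_le_mul h1 h2 (norm_nonneg _) zero_le_one
    _ = ε := one_mul _

end Forcing.HM
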