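import Pool.Agent.Lib.MP_c80ac4_an.Defs

/-! # Definitions for joint power images and Pisot numbers -/

namespace Forcing

open Polynomial

/-- `θ` is a Pisot number: `θ > 1` is a root of a monic polynomial with integer coefficients all
other complex roots of which lie in the open unit disc. -/
def IsPisot (θ : ℝ) : Prop :=
  1 < θ ∧ ∃ p : ℤ[X], p.Monic ∧ aeval θ p = 0 ∧ ∀ z : ℂ, aeval z p = 0 → z ≠ θ → ‖z‖ < 1

/-- The real numbers with an expansion in base `θ` with digits in `D`. -/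
def digitSet (θ : ℝ) (D : Set ℝ) : Set ℝ :=
  {x | ∃ d : ℕ → ℝ, (∀ j, d j ∈ D) ∧ HasSum (fun j => d j * θ⁻¹ ^ (j + 1)) x}

/-- For arbitrarily large `t` there are integers `n i`, relatively close to `t * ρ i`, such that the
joint power image of `E` misses the polydisc of radius `η` about `w`. -/
def HM.Misses {m : ℕ} (ρ : Fin m → ℝ) (w : Fin m → ℂ) (η : ℝ) (E : Set ℂ) : Prop :=
  ∀ κ R : ℝ, 0 < κ → ∃ (n : Fin m → ℤ) (t : ℝ), R ≤ t ∧ (∀ i, |(n i : ℝ) - t * ρ i| ≤ κ * t) ∧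
    ∀ z ∈ E, ∃ i, η ≤ ‖z ^ n i - w i‖

/-- Up to arbitrarily small errors the constant one is on `E` the sum of a `q`-lacunary polynomial
with frequencies `≥ N` and a trigonometric polynomial with absolute coefficient sum at most `γ`. -/
def HS.TwoSided (E : Set ℂ) (q γ : ℝ) : Prop :=
  ∀ (N : ℕ) (ε : ℝ), 0 < ε → ∃ (S : Finset ℕ) (c : ℕ → ℂ) (B : Finset ℤ) (ρ : ℤ → ℂ),
    LacSet q N (S : Set ℕ) ∧ ∑ b ∈ B, ‖ρ b‖ ≤ γ ∧
      ∀ z ∈ E, ‖1 - ∑ n ∈ S, c n * z ^ n - ∑ b ∈ B, ρ b * z ^ b‖ ≤ ε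

end Forcing
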