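import Pool.Agent.Lib.MP_c80ac4_an.Local.Ratio

/-! # Trigonometric polynomials in several variables with bounded absolute coefficient sum -/

namespace Forcing.HM

open Forcing.Ratio Filter Topology

variable {m : ℕ}

theorem e_zero : e 0 = 1 := by unfold e; simp

theorem e_neg (x : ℝ) : e (-x) = (starRingEnd ℂ) (e x) := by
  have h1 : e (-x) * e x = 1 := by rw [← e_add, neg_add_cancel, e_zero]
  have h2 : (starRingEnd ℂ) (e x) * e x = 1 := by
    rw [mul_comm, Complex.mul_conj, Complex.normSq_eq_norm_sq, norm_e]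
    simp
  have h3 : e x ≠ 0 := fun h => by
    have := norm_e x
    rw [h, norm_zero] at this
    exact zero_ne_one this
  exact mul_right_cancel₀ h3 (h1.trans h2.symm)

theorem e_sum {ι : Type*} (s : Finset ι) (f : ι → ℝ) : e (∑ i ∈ s, f i) = ∏ i ∈ s, e (f i) := by
  classical
  induction s using Finset.induction_on with
  | empty => simp [e_zero]
  | insert a s ha ih => rw [Finset.sum_insert ha, Finset.prod_insert ha, e_add, ih]

/-- The characters of the torus. -/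
noncomputable def ch (j : Fin m → ℤ) (x : Fin m → ℝ) : ℂ := e (∑ i, (j i : ℝ) * x i)

theorem norm_ch (j : Fin m → ℤ) (x : Fin m → ℝ) : ‖ch j x‖ = 1 := norm_e _

theorem ch_add (j k : Fin m → ℤ) (x : Fin m → ℝ) : ch (j + k) x = ch j x * ch k x := by
  unfold ch
  rw [← e_add, ← Finset.sum_add_distrib]
  congr 1
  refine Finset.sum_congr rfl fun i _ => ?_
  rw [Pi.add_apply]
  push_cast
  ring

theorem ch_zero (x : Fin m → ℝ) : ch (0 : Fin m → ℤ) x = 1 := by
  unfold ch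
  simp [e_zero]

theorem ch_neg (j : Fin m → ℤ) (x : Fin m → ℝ) : ch (-j) x = (starRingEnd ℂ) (ch j x) := by
  unfold ch
  rw [← e_neg, ← Finset.sum_neg_distrib]
  congr 1
  refine Finset.sum_congr rfl fun i _ => ?_
  rw [Pi.neg_apply]
  push_cast
  ring

theorem ch_mul_neg (j k : Fin m → ℤ) (x : Fin m → ℝ) : ch j x * ch (-k) x = ch (j - k) x := by
  rw [← ch_add, sub_eq_add_neg]

/-- `f` is a trigonometric polynomial with frequencies in `S` and absolute coefficient sum at most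
`B`. -/
def Rep (S : Set (Fin m → ℤ)) (B : ℝ) (f : (Fin m → ℝ) → ℂ) : Prop :=
  ∃ (s : Finset (Fin m → ℤ)) (a : (Fin m → ℤ) → ℂ), (∀ j ∈ s, j ∈ S) ∧ ∑ j ∈ s, ‖a j‖ ≤ B ∧
    ∀ x, f x = ∑ j ∈ s, a j * ch j x

theorem rep_family {ι : Type*} (t : Finset ι) (n : ι → (Fin m → ℤ)) (a : ι → ℂ)
    {S : Set (Fin m → ℤ)} {B : ℝ} (hS : ∀ i ∈ t, n i ∈ S) (hB : ∑ i ∈ t, ‖a i‖ ≤ B)
    {f : (Fin m → ℝ) → ℂ} (hf : ∀ x, f x = ∑ i ∈ t, a i * ch (n i) x) : Rep S B f := by
  classical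
  have hmaps : ∀ i ∈ t, n i ∈ t.image n := fun i hi => Finset.mem_image_of_mem n hi
  refine ⟨t.image n, fun j => ∑ i ∈ t with n i = j, a i, ?_, ?_, ?_⟩
  · intro j hj
    obtain ⟨i, hi, rfl⟩ := Finset.mem_image.1 hj
    exact hS i hi
  · refine le_trans (Finset.sum_le_sum fun j _ => norm_sum_le _ _) ?_
    rw [Finset.sum_fiberwise_of_maps_to hmaps]
    exact hB
  · intro x
    rw [hf x, ← Finset.sum_fiberwise_of_maps_to hmaps (fun i => a i * ch (n i) x)]
    refine Finset.sum_congr rfl fun j _ => ?_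
    rw [Finset.sum_mul]
    refine Finset.sum_congr rfl fun i hi => ?_
    rw [(Finset.mem_filter.1 hi).2]

theorem Rep.mono {S S' : Set (Fin m → ℤ)} {B B' : ℝ} {f : (Fin m → ℝ) → ℂ} (h : Rep S B f)
    (hS : S ⊆ S') (hB : B ≤ B') : Rep S' B' f := by
  obtain ⟨s, a, h1, h2, h3⟩ := h
  exact ⟨s, a, fun j hj => hS (h1 j hj), h2.trans hB, h3⟩

theorem Rep.nonneg {S : Set (Fin m → ℤ)} {B : ℝ} {f : (Fin m → ℝ) → ℂ} (h : Rep S B f) :
    0 ≤ B := by
  obtain ⟨s, a, h1, h2, h3⟩ := h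
  exact (Finset.sum_nonneg fun _ _ => norm_nonneg _).trans h2

theorem Rep.norm_le {S : Set (Fin m → ℤ)} {B : ℝ} {f : (Fin m → ℝ) → ℂ} (h : Rep S B f)
    (x : Fin m → ℝ) : ‖f x‖ ≤ B := by
  obtain ⟨s, a, h1, h2, h3⟩ := h
  rw [h3]
  refine (norm_sum_le _ _).trans (le_trans (le_of_eq ?_) h2)
  refine Finset.sum_congr rfl fun j _ => ?_
  rw [norm_mul, norm_ch, mul_one]

theorem Rep.congr {S : Set (Fin m → ℤ)} {B : ℝ} {f g : (Fin m → ℝ) → ℂ} (h : Rep S B f)
    (hfg : ∀ x, g x = f x) : Rep S B g := by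
  obtain ⟨s, a, h1, h2, h3⟩ := h
  exact ⟨s, a, h1, h2, fun x => (hfg x).trans (h3 x)⟩

theorem Rep.add {S : Set (Fin m → ℤ)} {B B' : ℝ} {f g : (Fin m → ℝ) → ℂ} (h : Rep S B f)
    (h' : Rep S B' g) : Rep S (B + B') (fun x => f x + g x) := by
  obtain ⟨s, a, h1, h2, h3⟩ := h
  obtain ⟨s', a', h1', h2', h3'⟩ := h'
  refine rep_family (s.disjSum s') (Sum.elim id id) (Sum.elim a a') ?_ ?_ ?_
  · intro i hi
    rcases i with i | i
    · exact h1 i (by simpa using hi)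
    · exact h1' i (by simpa using hi)
  · rw [Finset.sum_disjSum]
    exact add_le_add h2 h2'
  · intro x
    rw [Finset.sum_disjSum, h3, h3']
    rfl

theorem Rep.mul {S S' S'' : Set (Fin m → ℤ)} {B B' : ℝ} {f g : (Fin m → ℝ) → ℂ} (h : Rep S B f)
    (h' : Rep S' B' g) (hS : ∀ j ∈ S, ∀ k ∈ S', j + k ∈ S'') :
    Rep S'' (B * B') (fun x => f x * g x) := by
  have hB := h.nonneg
  obtain ⟨s, a, h1, h2, h3⟩ := h
  obtain ⟨s', a', h1', h2', h3'⟩ := h'
  refine rep_family (s ×ˢ s') (fun p => p.1 + p.2) (fun p => a p.1 * a' p.2) ?_ ?_ ?_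
  · intro i hi
    rw [Finset.mem_product] at hi
    exact hS _ (h1 _ hi.1) _ (h1' _ hi.2)
  · rw [Finset.sum_product]
    have : ∀ j ∈ s, ∑ k ∈ s', ‖a j * a' k‖ = ‖a j‖ * ∑ k ∈ s', ‖a' k‖ := by
      intro j _
      rw [Finset.mul_sum]
      exact Finset.sum_congr rfl fun k _ => norm_mul _ _
    simp only
    rw [Finset.sum_congr rfl this, ← Finset.sum_mul]
    exact mul_le_mul h2 h2' (Finset.sum_nonneg fun _ _ => norm_nonneg _) hB
  · intro x
    rw [h3, h3', Finset.sum_mul_sum, Finset.sum_product]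
    refine Finset.sum_congr rfl fun j _ => Finset.sum_congr rfl fun k _ => ?_
    simp only
    rw [ch_add]
    ring

theorem Rep.const_mul {S : Set (Fin m → ℤ)} {B : ℝ} {f : (Fin m → ℝ) → ℂ} (h : Rep S B f)
    (c : ℂ) : Rep S (‖c‖ * B) (fun x => c * f x) := by
  obtain ⟨s, a, h1, h2, h3⟩ := h
  refine ⟨s, fun j => c * a j, h1, ?_, fun x => ?_⟩
  · simp only [norm_mul]
    rw [← Finset.mul_sum]
    exact mul_le_mul_of_nonneg_left h2 (norm_nonneg _)
  · simp only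
    rw [h3, Finset.mul_sum]
    exact Finset.sum_congr rfl fun j _ => by ring

theorem rep_const {S : Set (Fin m → ℤ)} (h0 : (0 : Fin m → ℤ) ∈ S) (c : ℂ) :
    Rep S ‖c‖ (fun _ => c) :=
  ⟨{0}, fun _ => c, by simpa using h0, by simp, fun x => by simp [ch_zero]⟩

theorem rep_zero {S : Set (Fin m → ℤ)} : Rep S 0 (fun _ => 0) :=
  ⟨∅, fun _ => 0, by simp, by simp, fun x => by simp⟩

theorem Rep.neg {S : Set (Fin m → ℤ)} {B : ℝ} {f : (Fin m → ℝ) → ℂ} (h : Rep S B f) :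
    Rep S B (fun x => - f x) := by
  have h1 : Rep S B (fun x => (-1 : ℂ) * f x) :=
    (h.const_mul (-1)).mono le_rfl (le_of_eq (by rw [norm_neg, norm_one, one_mul]))
  exact h1.congr fun x => by ring

theorem Rep.sub {S : Set (Fin m → ℤ)} {B B' : ℝ} {f g : (Fin m → ℝ) → ℂ} (h : Rep S B f)
    (h' : Rep S B' g) : Rep S (B + B') (fun x => f x - g x) :=
  (h.add h'.neg).congr fun x => by ring

theorem Rep.sum {ι : Type*} {S : Set (Fin m → ℤ)} (t : Finset ι) {B : ι → ℝ}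
    {f : ι → (Fin m → ℝ) → ℂ} (h : ∀ i ∈ t, Rep S (B i) (f i)) :
    Rep S (∑ i ∈ t, B i) (fun x => ∑ i ∈ t, f i x) := by
  classical
  induction t using Finset.induction_on with
  | empty => simpa using rep_zero
  | insert a t ha ih =>
    have h1 := (h a (Finset.mem_insert_self _ _)).add (ih fun i hi => h i (Finset.mem_insert_of_mem hi))
    rw [Finset.sum_insert ha]
    exact h1.congr fun x => Finset.sum_insert ha

/-- the box of frequencies -/
def Box (m D : ℕ) : Set (Fin m → ℤ) := {j | ∀ i, |j i| ≤ D}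

theorem box_add {D D' : ℕ} {j k : Fin m → ℤ} (hj : j ∈ Box m D) (hk : k ∈ Box m D') :
    j + k ∈ Box m (D + D') := by
  intro i
  have h1 := hj i
  have h2 := hk i
  rw [Pi.add_apply]
  push_cast
  exact (abs_add_le _ _).trans (add_le_add h1 h2)

theorem box_mono {D D' : ℕ} (h : D ≤ D') : Box m D ⊆ Box m D' := by
  intro j hj i
  exact (hj i).trans (by exact_mod_cast h)

theorem zero_mem_box (D : ℕ) : (0 : Fin m → ℤ) ∈ Box m D := by
  intro i
  simp

theorem Rep.pow_box {D : ℕ} {B : ℝ} {f : (Fin m → ℝ) → ℂ} (h : Rep (Box m D) B f) (n : ℕ) :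
    Rep (Box m (n * D)) (B ^ n) (fun x => f x ^ n) := by
  induction n with
  | zero =>
    rw [pow_zero]
    exact ((rep_const (zero_mem_box _) 1).mono le_rfl (by simp)).congr fun x => by simp
  | succ n ih =>
    rw [pow_succ]
    refine ((ih.mul h (S'' := Box m ((n + 1) * D)) fun j hj k hk => ?_)).congr fun x => pow_succ _ _
    have := box_add hj hk
    rwa [← Nat.succ_mul] at this

theorem Rep.pow_univ {B : ℝ} {f : (Fin m → ℝ) → ℂ} (h : Rep Set.univ B f) (n : ℕ) :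
    Rep Set.univ (B ^ n) (fun x => f x ^ n) := by
  induction n with
  | zero =>
    rw [pow_zero]
    exact ((rep_const (Set.mem_univ _) 1).mono le_rfl (by simp)).congr fun x => by simp
  | succ n ih =>
    rw [pow_succ]
    exact ((ih.mul h (S'' := Set.univ) fun j _ k _ => Set.mem_univ _)).congr fun x => pow_succ _ _

/-- every representation lies in some box -/
theorem Rep.exists_box {S : Set (Fin m → ℤ)} {B : ℝ} {f : (Fin m → ℝ) → ℂ} (h : Rep S B f) :
    ∃ D : ℕ, Rep (Box m D) B f := by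
  obtain ⟨s, a, h1, h2, h3⟩ := h
  refine ⟨s.sup fun j => Finset.univ.sup fun i => (j i).natAbs, s, a, fun j hj i => ?_, h2, h3⟩
  have h4 : (j i).natAbs ≤ Finset.univ.sup fun i => (j i).natAbs :=
    Finset.le_sup (f := fun i => (j i).natAbs) (Finset.mem_univ i)
  have h5 : (Finset.univ.sup fun i => (j i).natAbs) ≤
      s.sup fun j => Finset.univ.sup fun i => (j i).natAbs :=
    Finset.le_sup (f := fun j => Finset.univ.sup fun i => (j i).natAbs) hj
  have h6 := h4.trans h5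
  rw [Int.abs_eq_natAbs]
  exact_mod_cast h6

section grid

/-- points of the grid -/
noncomputable def gp (N : ℕ) (g : Fin m → Fin N) : Fin m → ℝ := fun i => ((g i : ℕ) : ℝ) / N

theorem geom_e {N : ℕ} (hN : 0 < N) {k : ℤ} (hk : k ≠ 0) (hkN : |k| < N) :
    ∑ l : Fin N, e ((k : ℝ) * (((l : ℕ) : ℝ) / N)) = 0 := by
  have hN' : (N : ℝ) ≠ 0 := by positivity
  have h1 : ∀ l : Fin N, e ((k : ℝ) * (((l : ℕ) : ℝ) / N)) = e ((k : ℝ) / N) ^ (l : ℕ) := by
    intro l
    rw [e_pow]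
    congr 1
    ring
  simp_rw [h1]
  rw [Fin.sum_univ_eq_sum_range (fun l => e ((k : ℝ) / N) ^ l) N]
  have h2 : e ((k : ℝ) / N) ≠ 1 := by
    unfold e
    intro h
    rw [Complex.exp_eq_one_iff] at h
    obtain ⟨n, hn⟩ := h
    have h3 : (2 * Real.pi * ((k : ℝ) / N) : ℂ) * Complex.I = (n * (2 * Real.pi) : ℂ) * Complex.I := by
      have h4 : ((2 * Real.pi * ((k : ℝ) / N) : ℝ) : ℂ) * Complex.I =
          (2 * Real.pi * ((k : ℝ) / N) : ℂ) * Complex.I := by push_cast; ring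
      rw [← h4, hn]
      ring
    have h5 := mul_right_cancel₀ Complex.I_ne_zero h3
    have h6 : (2 * Real.pi * ((k : ℝ) / N) : ℝ) = n * (2 * Real.pi) := by exact_mod_cast h5
    have h7 : (k : ℝ) / N = n := by
      have := Real.pi_pos
      have h8 : (2 * Real.pi) * ((k : ℝ) / N) = (2 * Real.pi) * n := by linarith
      exact mul_left_cancel₀ (by positivity) h8
    rw [div_eq_iff hN'] at h7
    have h9 : k = n * N := by exact_mod_cast h7
    rcases eq_or_ne n 0 with h0 | h0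
    · apply hk
      rw [h9, h0, zero_mul]
    · have h10 : (1 : ℤ) ≤ |n| := Int.one_le_abs h0
      rw [h9, abs_mul, abs_of_nonneg (by positivity : (0 : ℤ) ≤ N)] at hkN
      nlinarith
  have h3 : (∑ l ∈ Finset.range N, e ((k : ℝ) / N) ^ l) * (e ((k : ℝ) / N) - 1) = 0 := by
    rw [geom_sum_mul, e_pow, mul_div_cancel₀ _ hN', e_int, sub_self]
  rcases mul_eq_zero.1 h3 with h | h
  · exact h
  · exact absurd (sub_eq_zero.1 h) h2

theorem sum_ch_grid {N : ℕ} (hN : 0 < N) {j : Fin m → ℤ} (hj : j ≠ 0) (hjN : ∀ i, |j i| < N) :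
    ∑ g : Fin m → Fin N, ch j (gp N g) = 0 := by
  classical
  have h1 : ∀ g : Fin m → Fin N, ch j (gp N g) =
      ∏ i, e ((j i : ℝ) * (((g i : ℕ) : ℝ) / N)) := by
    intro g
    unfold ch gp
    rw [e_sum]
  simp_rw [h1]
  have h2 := Finset.prod_univ_sum (fun _ : Fin m => (Finset.univ : Finset (Fin N)))
    (fun i l => e ((j i : ℝ) * (((l : ℕ) : ℝ) / N)))
  rw [Fintype.piFinset_univ] at h2
  rw [← h2]
  obtain ⟨i, hi⟩ := Function.ne_iff.1 hj
  exact Finset.prod_eq_zero (Finset.mem_univ i) (geom_e hN hi (hjN i))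

/-- The coefficients are averages over a grid. -/
theorem coef_eq {D : ℕ} {s : Finset (Fin m → ℤ)} (hs : ∀ j ∈ s, j ∈ Box m D)
    (a : (Fin m → ℤ) → ℂ) {j0 : Fin m → ℤ} (hj0 : j0 ∈ s) :
    ((2 * D + 1 : ℕ) : ℂ) ^ m * a j0 =
      ∑ g : Fin m → Fin (2 * D + 1), (∑ j ∈ s, a j * ch j (gp (2 * D + 1) g)) *
        ch (-j0) (gp (2 * D + 1) g) := by
  classical
  have h1 : ∀ g : Fin m → Fin (2 * D + 1), (∑ j ∈ s, a j * ch j (gp (2 * D + 1) g)) *
        ch (-j0) (gp (2 * D + 1) g) = ∑ j ∈ s, a j * ch (j - j0) (gp (2 * D + 1) g) := by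
    intro g
    rw [Finset.sum_mul]
    refine Finset.sum_congr rfl fun j _ => ?_
    rw [mul_assoc, ch_mul_neg]
  simp_rw [h1]
  rw [Finset.sum_comm]
  rw [Finset.sum_eq_single_of_mem j0 hj0]
  · simp only [sub_self, ch_zero, mul_one, Finset.sum_const, Finset.card_univ, Fintype.card_pi,
      Fintype.card_fin, Finset.prod_const, nsmul_eq_mul]
    push_cast
    ring
  · intro j hj hne
    rw [← Finset.mul_sum, sum_ch_grid (by omega) (sub_ne_zero.2 hne), mul_zero]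
    intro i
    rw [Pi.sub_apply]
    have h2 := hs j hj i
    have h3 := hs j0 hj0 i
    have h4 := abs_sub (j i) (j0 i)
    push_cast
    linarith

theorem coef_le {D : ℕ} {s : Finset (Fin m → ℤ)} (hs : ∀ j ∈ s, j ∈ Box m D)
    (a : (Fin m → ℤ) → ℂ) {ρ : ℝ} (hρ : ∀ x, ‖∑ j ∈ s, a j * ch j x‖ ≤ ρ) {j0 : Fin m → ℤ}
    (hj0 : j0 ∈ s) : ‖a j0‖ ≤ ρ := by
  have h1 := coef_eq hs a hj0
  have h2 : ‖((2 * D + 1 : ℕ) : ℂ) ^ m * a j0‖ ≤ ((2 * D + 1 : ℕ) : ℝ) ^ m * ρ := by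
    rw [h1]
    refine (norm_sum_le _ _).trans ?_
    refine (Finset.sum_le_sum (g := fun _ => ρ) fun g _ => ?_).trans (le_of_eq ?_)
    · rw [norm_mul, norm_ch, mul_one]
      exact hρ _
    · simp
  rw [norm_mul, norm_pow, Complex.norm_natCast] at h2
  exact le_of_mul_le_mul_left h2 (by positivity)

/-- the box as a finite set -/
noncomputable def boxF (m D : ℕ) : Finset (Fin m → ℤ) := Fintype.piFinset fun _ => Finset.Icc (-(D : ℤ)) D

theorem mem_boxF {D : ℕ} {j : Fin m → ℤ} : j ∈ boxF m D ↔ j ∈ Box m D := by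
  unfold boxF Box
  simp [abs_le]

theorem card_boxF (D : ℕ) : (boxF m D).card = (2 * D + 1) ^ m := by
  unfold boxF
  rw [Fintype.card_piFinset]
  simp only [Int.card_Icc, Finset.prod_const, Finset.card_univ, Fintype.card_fin]
  congr 1
  omega

/-- **Absolute coefficient sums and maxima.** -/
theorem Rep.of_sup {D : ℕ} {B ρ : ℝ} {f : (Fin m → ℝ) → ℂ} (h : Rep (Box m D) B f)
    (hρ : ∀ x, ‖f x‖ ≤ ρ) : Rep (Box m D) (((2 * D + 1 : ℕ) : ℝ) ^ m * ρ) f := by
  have hρ0 : 0 ≤ ρ := (norm_nonneg _).trans (hρ 0)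
  obtain ⟨s, a, h1, h2, h3⟩ := h
  refine ⟨s, a, h1, ?_, h3⟩
  have h4 : ∀ j ∈ s, ‖a j‖ ≤ ρ := fun j hj => coef_le h1 a (fun x => by rw [← h3]; exact hρ x) hj
  have h5 : s.card ≤ (2 * D + 1) ^ m := by
    rw [← card_boxF]
    exact Finset.card_le_card fun j hj => mem_boxF.2 (h1 j hj)
  calc ∑ j ∈ s, ‖a j‖ ≤ ∑ _j ∈ s, ρ := Finset.sum_le_sum h4
    _ = s.card * ρ := by simp
    _ ≤ ((2 * D + 1 : ℕ) : ℝ) ^ m * ρ := by
        refine mul_le_mul_of_nonneg_right ?_ hρ0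
        exact_mod_cast h5

theorem Rep.full {D : ℕ} {B : ℝ} {f : (Fin m → ℝ) → ℂ} (h : Rep (Box m D) B f) :
    ∃ a : (Fin m → ℤ) → ℂ, ∑ j ∈ boxF m D, ‖a j‖ ≤ B ∧ ∀ x, f x = ∑ j ∈ boxF m D, a j * ch j x := by
  classical
  obtain ⟨s, a, h1, h2, h3⟩ := h
  have hs : s ⊆ boxF m D := fun j hj => mem_boxF.2 (h1 j hj)
  refine ⟨fun j => if j ∈ s then a j else 0, ?_, fun x => ?_⟩
  · refine le_trans (le_of_eq ?_) h2
    rw [← Finset.sum_subset hs]
    · exact Finset.sum_congr rfl fun j hj => by simp only [if_pos hj]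
    · intro j _ hj
      simp only [if_neg hj, norm_zero]
  · rw [h3, ← Finset.sum_subset hs]
    · exact Finset.sum_congr rfl fun j hj => by simp only [if_pos hj]
    · intro j _ hj
      simp only [if_neg hj, zero_mul]

end grid

/-- **Powers of a sum of a polynomial with small maximum and one with small coefficients.** -/
theorem spectral {D : ℕ} {B ρ δ : ℝ} {p r : (Fin m → ℝ) → ℂ} (hp : Rep (Box m D) B p)
    (hρ : ∀ x, ‖p x‖ ≤ ρ) (hr : Rep Set.univ δ r) (n : ℕ) :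
    Rep Set.univ (((2 * (n * D) + 1 : ℕ) : ℝ) ^ m * (ρ + δ) ^ n) (fun x => (p x + r x) ^ n) := by
  have hρ0 : 0 ≤ ρ := (norm_nonneg _).trans (hρ 0)
  have hδ0 : 0 ≤ δ := hr.nonneg
  have h1 : ∀ k ∈ Finset.range (n + 1), Rep (m := m) Set.univ
      (((2 * (n * D) + 1 : ℕ) : ℝ) ^ m * (ρ ^ k * δ ^ (n - k) * (n.choose k : ℝ)))
      (fun x => p x ^ k * r x ^ (n - k) * (n.choose k : ℂ)) := by
    intro k hk
    have hk' : k ≤ n := by simpa [Nat.lt_succ_iff] using hk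
    have h2 : Rep (Box m (k * D)) (((2 * (k * D) + 1 : ℕ) : ℝ) ^ m * ρ ^ k) (fun x => p x ^ k) :=
      (hp.pow_box k).of_sup fun x => by
        rw [norm_pow]
        exact pow_le_pow_left₀ (norm_nonneg _) (hρ x) k
    have h3 : Rep (m := m) Set.univ (((2 * (k * D) + 1 : ℕ) : ℝ) ^ m * ρ ^ k * δ ^ (n - k))
        (fun x => p x ^ k * r x ^ (n - k)) :=
      (h2.mono (Set.subset_univ _) le_rfl).mul (hr.pow_univ _) fun _ _ _ _ => Set.mem_univ _
    have h4 := h3.const_mul (n.choose k : ℂ)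
    refine (h4.mono le_rfl ?_).congr fun x => by ring
    rw [Complex.norm_natCast]
    have h5 : ((2 * (k * D) + 1 : ℕ) : ℝ) ^ m ≤ ((2 * (n * D) + 1 : ℕ) : ℝ) ^ m := by
      refine pow_le_pow_left₀ (by positivity) ?_ m
      exact_mod_cast (by nlinarith [Nat.mul_le_mul_right D hk'] : 2 * (k * D) + 1 ≤ 2 * (n * D) + 1)
    have h6 : (0 : ℝ) ≤ ρ ^ k * δ ^ (n - k) * (n.choose k : ℝ) := by positivity
    calc (n.choose k : ℝ) * (((2 * (k * D) + 1 : ℕ) : ℝ) ^ m * ρ ^ k * δ ^ (n - k)) =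
        ((2 * (k * D) + 1 : ℕ) : ℝ) ^ m * (ρ ^ k * δ ^ (n - k) * (n.choose k : ℝ)) := by ring
      _ ≤ _ := mul_le_mul_of_nonneg_right h5 h6
  have h2 := Rep.sum _ h1
  rw [← Finset.mul_sum, ← add_pow] at h2
  exact h2.congr fun x => add_pow _ _ _

end Forcing.HM
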