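import Pool.Agent.Lib.MP_c80ac4_an.HM.Cut
import Pool.Agent.Lib.MP_c80ac4_an.HSet
import Pool.Agent.Lib.MP_c80ac4_an.HM.Defs

/-! # Joint power images that miss an open subset of the torus -/

namespace Forcing.HM

open Forcing.Ratio Forcing.HS Filter Topology Metric Set

variable {m : ℕ}

theorem exists_e {z : ℂ} (hz : ‖z‖ = 1) : ∃ x : ℝ, e x = z := by
  refine ⟨Complex.arg z / (2 * Real.pi), ?_⟩
  unfold e
  have h1 : 2 * Real.pi * (Complex.arg z / (2 * Real.pi)) = Complex.arg z := by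
    have := Real.pi_pos
    field_simp
  rw [h1]
  have h2 := Complex.norm_mul_exp_arg_mul_I z
  rwa [hz, Complex.ofReal_one, one_mul] at h2

theorem e_zpow (x : ℝ) (l : ℤ) : e x ^ l = e ((l : ℝ) * x) := by
  rcases Int.eq_nat_or_neg l with ⟨n, rfl | rfl⟩
  · rw [zpow_natCast, e_pow]
    push_cast
    rfl
  · rw [zpow_neg, zpow_natCast, e_pow]
    push_cast
    rw [neg_mul, e_neg]
    have h2 : (starRingEnd ℂ) (e ((n : ℝ) * x)) * e ((n : ℝ) * x) = 1 := by
      rw [mul_comm, Complex.mul_conj, Complex.normSq_eq_norm_sq, norm_e]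
      simp
    exact (eq_inv_of_mul_eq_one_left h2).symm

/-- the exponent -/
def ex (n j : Fin m → ℤ) : ℤ := ∑ i, j i * n i

theorem ch_ex (n j : Fin m → ℤ) (x : ℝ) : ch j (fun i => (n i : ℝ) * x) = e x ^ ex n j := by
  unfold ch ex
  rw [e_zpow]
  congr 1
  push_cast
  rw [Finset.sum_mul]
  exact Finset.sum_congr rfl fun i _ => by ring

/-- **Two-sided replacement from missed polydiscs.** -/
theorem twoSided_of_misses {ρ : Fin m → ℝ}
    (hρ : ∀ j : Fin m → ℤ, ∑ i, (j i : ℝ) * ρ i = 0 → j = 0) (w : Fin m → ℂ)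
    (hw : ∀ i, ‖w i‖ = 1) {η γ : ℝ} (hη : 0 < η) (hγ : 0 < γ) :
    ∃ q : ℝ, 1 < q ∧ ∀ E : Set ℂ, E ⊆ sphere 0 1 → Misses ρ w η E → TwoSided E q γ := by
  classical
  choose x0 hx0 using fun i => exists_e (hw i)
  have h2pi : 0 < 2 * Real.pi := by positivity
  obtain ⟨S, a, hS, hoff⟩ := off_box hρ x0 (η := η / (2 * Real.pi)) (by positivity) hγ
  set c : (Fin m → ℤ) → ℝ := fun j => ∑ i, (j i : ℝ) * ρ i with hc
  have hcinj : ∀ j k, c j = c k → j = k := by
    intro j k h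
    have h1 : ∑ i, (((j - k) i : ℤ) : ℝ) * ρ i = 0 := by
      have h2 : ∑ i, (((j - k) i : ℤ) : ℝ) * ρ i = c j - c k := by
        simp only [hc]
        rw [← Finset.sum_sub_distrib]
        refine Finset.sum_congr rfl fun i _ => ?_
        rw [Pi.sub_apply]
        push_cast
        ring
      rw [h2, h, sub_self]
    exact sub_eq_zero.1 (hρ _ h1)
  -- the ratio
  have hq : ∀ᶠ q in 𝓝[>] (1 : ℝ), ∀ p ∈ S ×ˢ S, c p.1 < c p.2 → q * c p.1 < c p.2 := by
    rw [Filter.eventually_all_finset]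
    intro p _
    by_cases h : c p.1 < c p.2
    · have h1 : Tendsto (fun q : ℝ => q * c p.1) (𝓝[>] 1) (𝓝 (1 * c p.1)) :=
        ((continuous_id.mul continuous_const).tendsto 1).mono_left nhdsWithin_le_nhds
      rw [one_mul] at h1
      filter_upwards [h1.eventually_lt_const h] with q hq _ using hq
    · exact Filter.Eventually.of_forall fun q h' => absurd h' h
  obtain ⟨q, hqS, hq1⟩ := (hq.and self_mem_nhdsWithin).exists
  have hq1' : 1 < q := hq1
  refine ⟨q, hq1', fun E hE hmiss N ε hε => ?_⟩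
  obtain ⟨T, b, hT1, hT2⟩ := hoff ε hε
  -- the norm of a frequency
  set nm : (Fin m → ℤ) → ℝ := fun j => ∑ i, |(j i : ℝ)| with hnm
  have hnm0 : ∀ j, 0 ≤ nm j := fun j => Finset.sum_nonneg fun _ _ => abs_nonneg _
  -- small relative errors
  have hκ1 : ∀ᶠ κ in 𝓝[>] (0 : ℝ), ∀ p ∈ S ×ˢ S, c p.1 < c p.2 →
      q * (c p.1 + κ * nm p.1) < c p.2 - κ * nm p.2 := by
    rw [Filter.eventually_all_finset]
    intro p hp
    by_cases h : c p.1 < c p.2
    · have h1 : Tendsto (fun κ : ℝ => q * (c p.1 + κ * nm p.1) - (c p.2 - κ * nm p.2)) (𝓝[>] 0)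
          (𝓝 (q * (c p.1 + 0 * nm p.1) - (c p.2 - 0 * nm p.2))) := by
        refine (Continuous.tendsto ?_ 0).mono_left nhdsWithin_le_nhds
        fun_prop
      rw [zero_mul, zero_mul, add_zero, sub_zero] at h1
      filter_upwards [h1.eventually_lt_const (show q * c p.1 - c p.2 < 0 by
        linarith [hqS p hp h])] with κ hκ _
      linarith
    · exact Filter.Eventually.of_forall fun q h' => absurd h' h
  have hκ2 : ∀ᶠ κ in 𝓝[>] (0 : ℝ), ∀ j ∈ S, κ * nm j < c j / 2 := by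
    rw [Filter.eventually_all_finset]
    intro j hj
    have hcj : 0 < c j := hS j hj
    have h1 : Tendsto (fun κ : ℝ => κ * nm j) (𝓝[>] 0) (𝓝 (0 * nm j)) :=
      ((continuous_id.mul continuous_const).tendsto 0).mono_left nhdsWithin_le_nhds
    rw [zero_mul] at h1
    exact h1.eventually_lt_const (by linarith)
  obtain ⟨κ, ⟨hκa, hκb⟩, hκ0⟩ := ((hκ1.and hκ2).and self_mem_nhdsWithin).exists
  have hκ0' : 0 < κ := hκ0
  -- large t
  have hRex : ∃ R : ℝ, 1 ≤ R ∧ ∀ j ∈ S, (N : ℝ) + 1 ≤ R * (c j / 2) := by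
    have h1 : ∀ᶠ R : ℝ in atTop, ∀ j ∈ S, (N : ℝ) + 1 ≤ R * (c j / 2) := by
      rw [Filter.eventually_all_finset]
      intro j hj
      have hcj : 0 < c j := hS j hj
      exact (tendsto_id.atTop_mul_const (show 0 < c j / 2 by linarith)).eventually_ge_atTop _
    obtain ⟨R, h2, h3⟩ := (h1.and (eventually_ge_atTop 1)).exists
    exact ⟨R, h3, h2⟩
  obtain ⟨R, hR1, hR⟩ := hRex
  obtain ⟨n, t, ht, hnt, hEn⟩ := hmiss κ R hκ0'
  have ht0 : 0 < t := by linarith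
  have hexc : ∀ j, |(ex n j : ℝ) - t * c j| ≤ κ * nm j * t := by
    intro j
    have h1 : (ex n j : ℝ) - t * c j = ∑ i, (j i : ℝ) * ((n i : ℝ) - t * ρ i) := by
      simp only [ex, hc]
      push_cast
      rw [Finset.mul_sum, ← Finset.sum_sub_distrib]
      exact Finset.sum_congr rfl fun i _ => by ring
    rw [h1]
    refine (Finset.abs_sum_le_sum_abs _ _).trans ?_
    simp only [hnm]
    rw [Finset.mul_sum, Finset.sum_mul]
    refine Finset.sum_le_sum fun i _ => ?_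
    rw [abs_mul]
    calc |(j i : ℝ)| * |(n i : ℝ) - t * ρ i| ≤ |(j i : ℝ)| * (κ * t) :=
          mul_le_mul_of_nonneg_left (hnt i) (abs_nonneg _)
      _ = κ * |(j i : ℝ)| * t := by ring
  have hexpos : ∀ j ∈ S, (N : ℝ) + 1 ≤ ex n j := by
    intro j hj
    have h1 := hexc j
    have h2 := hκb j hj
    have h3 := hR j hj
    have hcj : 0 < c j := hS j hj
    have h4 := (abs_le.1 h1).1
    nlinarith [mul_lt_mul_of_pos_right h2 ht0, mul_le_mul_of_nonneg_right ht (by linarith : 0 ≤ c j / 2)]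
  have hexlac : ∀ j ∈ S, ∀ k ∈ S, c j < c k → q * (ex n j : ℝ) ≤ ex n k := by
    intro j hj k hk hjk
    have h1 := (abs_le.1 (hexc j)).2
    have h2 := (abs_le.1 (hexc k)).1
    have h3 := hκa (j, k) (Finset.mem_product.2 ⟨hj, hk⟩) hjk
    have h3' := mul_lt_mul_of_pos_right h3 ht0
    have h4 : (ex n j : ℝ) ≤ t * c j + κ * nm j * t := by linarith
    have h5 : q * (ex n j : ℝ) ≤ q * (t * c j + κ * nm j * t) :=
      mul_le_mul_of_nonneg_left h4 (by linarith)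
    nlinarith
  have hnat : ∀ j ∈ S, ((ex n j).toNat : ℤ) = ex n j := by
    intro j hj
    refine Int.toNat_of_nonneg ?_
    have h1 := hexpos j hj
    have h2 : (0 : ℝ) ≤ ex n j := by
      have : (0 : ℝ) ≤ N := Nat.cast_nonneg _
      linarith
    exact_mod_cast h2
  have hnatR : ∀ j ∈ S, (((ex n j).toNat : ℕ) : ℝ) = ex n j := by
    intro j hj
    have := hnat j hj
    exact_mod_cast this
  have hmaps : ∀ j ∈ S, (ex n j).toNat ∈ S.image fun j => (ex n j).toNat := fun j hj =>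
    Finset.mem_image_of_mem _ hj
  have hmapsT : ∀ j ∈ T, ex n j ∈ T.image fun j => ex n j := fun j hj =>
    Finset.mem_image_of_mem _ hj
  refine ⟨S.image fun j => (ex n j).toNat, fun k => ∑ j ∈ S with (ex n j).toNat = k, a j,
    T.image fun j => ex n j, fun k => ∑ j ∈ T with ex n j = k, b j, ⟨?_, ?_⟩, ?_, ?_⟩
  · intro k hk
    simp only [Finset.coe_image, Set.mem_image, Finset.mem_coe] at hk
    obtain ⟨j, hj, rfl⟩ := hk
    have h1 := hexpos j hj
    rw [← hnatR j hj] at h1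
    have h2 : N + 1 ≤ (ex n j).toNat := by exact_mod_cast h1
    omega
  · intro k hk k' hk' hkk'
    simp only [Finset.coe_image, Set.mem_image, Finset.mem_coe] at hk hk'
    obtain ⟨j, hj, rfl⟩ := hk
    obtain ⟨j', hj', rfl⟩ := hk'
    rw [hnatR j hj, hnatR j' hj']
    rcases lt_trichotomy (c j) (c j') with h | h | h
    · exact hexlac j hj j' hj' h
    · rw [hcinj _ _ h] at hkk'
      exact absurd hkk' (lt_irrefl _)
    · exfalso
      have h1 := hexlac j' hj' j hj h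
      rw [← hnatR j hj, ← hnatR j' hj'] at h1
      have h2 : (((ex n j).toNat : ℕ) : ℝ) < ((ex n j').toNat : ℕ) := by exact_mod_cast hkk'
      nlinarith [Nat.cast_nonneg (α := ℝ) (ex n j').toNat]
  · refine le_trans (Finset.sum_le_sum fun j _ => norm_sum_le _ _) ?_
    rw [Finset.sum_fiberwise_of_maps_to hmapsT]
    exact hT1
  · intro z hz
    have hz1 : ‖z‖ = 1 := by simpa using hE hz
    obtain ⟨x, rfl⟩ := exists_e hz1
    have hbox : ∃ i, ∀ l : ℤ, η / (2 * Real.pi) ≤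
        |(fun i => (n i : ℝ) * x) i - x0 i - l| := by
      obtain ⟨i, hi⟩ := hEn _ hz
      refine ⟨i, fun l => ?_⟩
      rw [e_zpow, ← hx0 i, ← e_sub_int _ l] at hi
      have h1 := e_sub_le ((n i : ℝ) * x - l) (x0 i)
      rw [div_le_iff₀ h2pi]
      have h2 : (n i : ℝ) * x - l - x0 i = (n i : ℝ) * x - x0 i - l := by ring
      rw [h2] at h1
      simp only
      linarith
    have h1 := hT2 (fun i => (n i : ℝ) * x) hbox
    have h2 : ∑ j ∈ S, a j * ch j (fun i => (n i : ℝ) * x) =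
        ∑ k ∈ S.image fun j => (ex n j).toNat, (∑ j ∈ S with (ex n j).toNat = k, a j) * e x ^ k := by
      rw [← Finset.sum_fiberwise_of_maps_to hmaps (fun j => a j * ch j (fun i => (n i : ℝ) * x))]
      refine Finset.sum_congr rfl fun k _ => ?_
      rw [Finset.sum_mul]
      refine Finset.sum_congr rfl fun j hj => ?_
      rw [Finset.mem_filter] at hj
      rw [ch_ex, ← hnat j hj.1, zpow_natCast, hj.2]
    have h3 : ∑ j ∈ T, b j * ch j (fun i => (n i : ℝ) * x) =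
        ∑ k ∈ T.image fun j => ex n j, (∑ j ∈ T with ex n j = k, b j) * e x ^ k := by
      rw [← Finset.sum_fiberwise_of_maps_to hmapsT (fun j => b j * ch j (fun i => (n i : ℝ) * x))]
      refine Finset.sum_congr rfl fun k _ => ?_
      rw [Finset.sum_mul]
      refine Finset.sum_congr rfl fun j hj => ?_
      rw [Finset.mem_filter] at hj
      rw [ch_ex, hj.2]
    rw [h2, h3] at h1
    exact h1

/-- A set of points of the circle with the Sidon property does not miss polydiscs. -/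
theorem not_misses {ρ : Fin m → ℝ}
    (hρ : ∀ j : Fin m → ℤ, ∑ i, (j i : ℝ) * ρ i = 0 → j = 0) (w : Fin m → ℂ)
    (hw : ∀ i, ‖w i‖ = 1) {η : ℝ} (hη : 0 < η) {E : Set ℂ} (hE : E ⊆ sphere 0 1)
    (hS : SidonOn E) : ¬ Misses ρ w η E := by
  intro hm
  obtain ⟨q, hq, h⟩ := twoSided_of_misses hρ w hw hη (show (0 : ℝ) < 1 / 2 by norm_num)
  exact not_sidonOn_of_twoSided hE hq (h E hE hm) (by norm_num) hS

/-- **Joint power images become dense.** -/
theorem joint_dense {ρ : Fin m → ℝ}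
    (hρ : ∀ j : Fin m → ℤ, ∑ i, (j i : ℝ) * ρ i = 0 → j = 0) {E : Set ℂ} (hE : E ⊆ sphere 0 1)
    (hS : SidonOn E) {ε : ℝ} (hε : 0 < ε) :
    ∃ κ R : ℝ, 0 < κ ∧ ∀ (n : Fin m → ℤ) (t : ℝ), R ≤ t → (∀ i, |(n i : ℝ) - t * ρ i| ≤ κ * t) →
      ∀ w : Fin m → ℂ, (∀ i, ‖w i‖ = 1) → ∃ z ∈ E, ∀ i, ‖z ^ n i - w i‖ < ε := by
  classical
  have hcomp : IsCompact (Set.pi Set.univ fun _ : Fin m => sphere (0 : ℂ) 1) :=
    isCompact_univ_pi fun _ => isCompact_sphere _ _
  obtain ⟨t, hts, htf, hcov⟩ := hcomp.finite_cover_balls (half_pos hε)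
  have h1 : ∀ w₀ ∈ t, ∃ κ R : ℝ, 0 < κ ∧ ∀ (n : Fin m → ℤ) (t : ℝ), R ≤ t →
      (∀ i, |(n i : ℝ) - t * ρ i| ≤ κ * t) → ∃ z ∈ E, ∀ i, ‖z ^ n i - w₀ i‖ < ε / 2 := by
    intro w₀ hw₀
    have hw1 : ∀ i, ‖w₀ i‖ = 1 := fun i => by simpa using hts hw₀ i (Set.mem_univ i)
    have h2 := not_misses hρ w₀ hw1 (half_pos hε) hE hS
    unfold Misses at h2
    push Not at h2
    obtain ⟨κ, R, hκ, h3⟩ := h2
    exact ⟨κ, R, hκ, h3⟩
  choose! κ R hκ h2 using h1
  -- common bounds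
  have hmin : ∃ κ' : ℝ, 0 < κ' ∧ ∀ w₀ ∈ t, κ' ≤ κ w₀ := by
    have h3 : ∀ᶠ κ' in 𝓝[>] (0 : ℝ), ∀ w₀ ∈ t, κ' ≤ κ w₀ := by
      rw [Filter.eventually_all_finite htf]
      intro w₀ hw₀
      have h4 : ∀ᶠ κ' in 𝓝 (0 : ℝ), κ' < κ w₀ := eventually_lt_nhds (hκ w₀ hw₀)
      filter_upwards [nhdsWithin_le_nhds h4] with κ' h5 using h5.le
    obtain ⟨κ', h4, h5⟩ := (h3.and self_mem_nhdsWithin).exists
    exact ⟨κ', h5, h4⟩
  obtain ⟨κ', hκ'0, hκ'⟩ := hmin
  obtain ⟨R', hR'0, hR'⟩ : ∃ R' : ℝ, 0 ≤ R' ∧ ∀ w₀ ∈ t, R w₀ ≤ R' := by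
    have h3 : ∀ᶠ R' : ℝ in atTop, ∀ w₀ ∈ t, R w₀ ≤ R' := by
      rw [Filter.eventually_all_finite htf]
      exact fun w₀ _ => eventually_ge_atTop _
    obtain ⟨R', h4, h5⟩ := (h3.and (eventually_ge_atTop 0)).exists
    exact ⟨R', h5, h4⟩
  refine ⟨κ', R', hκ'0, fun n s hs hns w hw => ?_⟩
  have hwmem : w ∈ Set.pi Set.univ fun _ : Fin m => sphere (0 : ℂ) 1 := fun i _ => by
    simpa using hw i
  have h3 := hcov hwmem
  simp only [Set.mem_iUnion, mem_ball, exists_prop] at h3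
  obtain ⟨w₀, hw₀, hd⟩ := h3
  obtain ⟨z, hz, hzi⟩ := h2 w₀ hw₀ n s ((hR' w₀ hw₀).trans hs) fun i =>
    (hns i).trans (mul_le_mul_of_nonneg_right (hκ' w₀ hw₀) (hR'0.trans hs))
  refine ⟨z, hz, fun i => ?_⟩
  have h4 : ‖w i - w₀ i‖ < ε / 2 := by
    rw [← dist_eq_norm]
    exact (dist_le_pi_dist w w₀ i).trans_lt hd
  have h5 : z ^ n i - w i = (z ^ n i - w₀ i) - (w i - w₀ i) := by ring
  rw [h5]
  refine (norm_sub_le _ _).trans_lt ?_
  linarith [hzi i]

end Forcing.HM
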